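import Pool.Agent.R30.Hex.Disk2

set_option autoImplicit false

/-! The six faces as images of the unit disk. -/

namespace Pool.Agent.R30.Hex

open Set Topology Pool.Agent.R30.Thr

/-- the upper unit half circle -/
noncomputable def s (x : ℝ) : ℝ := Real.sqrt (1 - x ^ 2)

lemma s_nonneg (x : ℝ) : 0 ≤ s x := Real.sqrt_nonneg _

lemma s_sq {x : ℝ} (h : x ^ 2 ≤ 1) : s x ^ 2 = 1 - x ^ 2 := Real.sq_sqrt (by linarith)

@[fun_prop]
lemma s_cont : Continuous s := by unfold s; fun_prop

lemma s_neg_one : s (-1) = 0 := by unfold s; norm_num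
lemma s_one : s 1 = 0 := by unfold s; norm_num
lemma s_zero : s 0 = 1 := by unfold s; norm_num
lemma s_35 : s (3 / 5) = 4 / 5 := by
  unfold s
  rw [show (1 : ℝ) - (3 / 5) ^ 2 = (4 / 5) ^ 2 by norm_num]
  exact Real.sqrt_sq (by norm_num)
lemma s_n35 : s (-3 / 5) = 4 / 5 := by
  unfold s
  rw [show (1 : ℝ) - (-3 / 5) ^ 2 = (4 / 5) ^ 2 by norm_num]
  exact Real.sqrt_sq (by norm_num)

lemma abs_le_s {x y : ℝ} (h : x ^ 2 + y ^ 2 ≤ 1) : |y| ≤ s x :=
  Real.abs_le_sqrt (by linarith)

lemma abs_lt_s {x y : ℝ} (h : x ^ 2 + y ^ 2 < 1) : |y| < s x := by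
  rw [← Real.sqrt_sq_eq_abs]
  exact Real.sqrt_lt_sqrt (sq_nonneg _) (by linarith)

/-- three indices -/
inductive Z3 | i0 | i1 | i2
  deriving DecidableEq, Fintype

/-- the six faces -/
inductive Fc | f0 | f1 | f2 | f3 | f4 | f5
  deriving DecidableEq, Fintype

/-- multiplier of a short path -/
noncomputable def ms : Z3 → ℝ
  | .i0 => -5 | .i1 => -1 | .i2 => 3

/-- multiplier of a long path -/
noncomputable def ml : Z3 → ℝ
  | .i0 => -3 | .i1 => 1 | .i2 => 5

/-- the short path of a face -/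
def sh : Fc → Z3
  | .f0 => .i0 | .f1 => .i1 | .f2 => .i1 | .f3 => .i2 | .f4 => .i2 | .f5 => .i0

/-- the long path of a face -/
def lo : Fc → Z3
  | .f0 => .i0 | .f1 => .i0 | .f2 => .i1 | .f3 => .i1 | .f4 => .i2 | .f5 => .i2

/-- orientation of the chart -/
noncomputable def eps : Fc → ℝ
  | .f0 => 1 | .f1 => -1 | .f2 => 1 | .f3 => -1 | .f4 => 1 | .f5 => 1

/-- centre of the chart -/
noncomputable def cen : Fc → ℝ
  | .f0 => -4 | .f1 => -2 | .f2 => 0 | .f3 => 2 | .f4 => 4 | .f5 => 0

lemma eps_sq (f : Fc) : eps f * eps f = 1 := by cases f <;> simp only [eps] <;> norm_num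

/-- a vertical shear, composed with a reflection -/
noncomputable def shear (e c : ℝ) (he : e * e = 1) : ℝ × ℝ ≃ₜ ℝ × ℝ where
  toFun z := (z.1, e * z.2 + c * s z.1)
  invFun z := (z.1, e * (z.2 - c * s z.1))
  left_inv z := by
    apply Prod.ext
    · rfl
    · simp only
      linear_combination z.2 * he
  right_inv z := by
    apply Prod.ext
    · rfl
    · simp only
      linear_combination (z.2 - c * s z.1) * he
  continuous_toFun := by fun_prop
  continuous_invFun := by fun_prop

/-- squared norm -/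
def nq (z : ℝ × ℝ) : ℝ := z.1 ^ 2 + z.2 ^ 2

/-- squared norm after scaling -/
noncomputable def mq (z : ℝ × ℝ) : ℝ := z.1 ^ 2 + (z.2 / 5) ^ 2

lemma nq_pos {z : ℝ × ℝ} (h : z ≠ (0, 0)) : 0 < nq z := by
  unfold nq
  by_contra hc
  push Not at hc
  apply h
  have h1 := sq_nonneg z.1
  have h2 := sq_nonneg z.2
  have h3 : z.1 ^ 2 = 0 := by linarith
  have h4 : z.2 ^ 2 = 0 := by linarith
  exact Prod.ext (by simpa using h3) (by simpa using h4)

lemma mq_pos {z : ℝ × ℝ} (h : z ≠ (0, 0)) : 0 < mq z := by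
  have := nq_pos (z := (z.1, z.2 / 5)) (by
    intro hc
    apply h
    simp only [Prod.mk.injEq] at hc
    exact Prod.ext hc.1 (by simp only; linarith [hc.2]))
  exact this

lemma nq_cont : Continuous nq := by unfold nq; fun_prop
lemma mq_cont : Continuous mq := by unfold mq; fun_prop

/-- the inversion that maps the punctured unit disk to the outside of an ellipse -/
noncomputable def invc : OpenPartialHomeomorph (ℝ × ℝ) (ℝ × ℝ) where
  toFun z := (z.1 / nq z, 5 * z.2 / nq z)
  invFun z := (z.1 / mq z, z.2 / 5 / mq z)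
  source := {(0, 0)}ᶜ
  target := {(0, 0)}ᶜ
  map_source' z hz := by
    have h := (nq_pos hz).ne'
    intro hc
    apply hz
    simp only [mem_singleton_iff, Prod.mk.injEq, div_eq_zero_iff, mul_eq_zero] at hc
    obtain ⟨h1, h2⟩ := hc
    exact Prod.ext (h1.resolve_right h) ((h2.resolve_right h).resolve_left (by norm_num))
  map_target' z hz := by
    have h := (mq_pos hz).ne'
    intro hc
    apply hz
    simp only [mem_singleton_iff, Prod.mk.injEq, div_eq_zero_iff] at hc
    obtain ⟨h1, h2⟩ := hc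
    exact Prod.ext (h1.resolve_right h) ((h2.resolve_right h).resolve_right (by norm_num))
  left_inv' z hz := by
    have h := (nq_pos hz).ne'
    have e : mq (z.1 / nq z, 5 * z.2 / nq z) = 1 / nq z := by
      have h' : nq z = z.1 ^ 2 + z.2 ^ 2 := rfl
      simp only [mq]
      field_simp
      rw [h']
    apply Prod.ext
    · simp only [e]; field_simp
    · simp only [e]; field_simp
  right_inv' z hz := by
    have h := (mq_pos hz).ne'
    have e : nq (z.1 / mq z, z.2 / 5 / mq z) = 1 / mq z := by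
      have h' : mq z = z.1 ^ 2 + (z.2 / 5) ^ 2 := rfl
      simp only [nq]
      field_simp
      rw [h']
      ring
    apply Prod.ext
    · simp only [e]; field_simp
    · simp only [e]; field_simp
  open_source := isOpen_compl_singleton
  open_target := isOpen_compl_singleton
  continuousOn_toFun := by
    apply ContinuousOn.prodMk
    · exact continuousOn_fst.div nq_cont.continuousOn fun z hz => (nq_pos hz).ne'
    · exact (by fun_prop : Continuous fun z : ℝ × ℝ => 5 * z.2).continuousOn.div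
        nq_cont.continuousOn fun z hz => (nq_pos hz).ne'
  continuousOn_invFun := by
    apply ContinuousOn.prodMk
    · exact continuousOn_fst.div mq_cont.continuousOn fun z hz => (mq_pos hz).ne'
    · exact (by fun_prop : Continuous fun z : ℝ × ℝ => z.2 / 5).continuousOn.div
        mq_cont.continuousOn fun z hz => (mq_pos hz).ne'

/-- the charts of the faces -/
noncomputable def chart (f : Fc) : OpenPartialHomeomorph (ℝ × ℝ) (ℝ × ℝ) :=
  if f = .f5 then invc else (shear (eps f) (cen f) (eps_sq f)).toOpenPartialHomeomorph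

lemma chart_f5 (z : ℝ × ℝ) : chart .f5 z = (z.1 / nq z, 5 * z.2 / nq z) := rfl

lemma chart_ne {f : Fc} (hf : f ≠ .f5) (z : ℝ × ℝ) :
    chart f z = (z.1, eps f * z.2 + cen f * s z.1) := by
  unfold chart; rw [if_neg hf]; rfl

lemma source_f5 : (chart .f5).source = {(0, 0)}ᶜ := rfl

lemma source_ne {f : Fc} (hf : f ≠ .f5) : (chart f).source = univ := by
  unfold chart; rw [if_neg hf]; rfl

lemma mem_source {f : Fc} {z : ℝ × ℝ} (h : f = .f5 → z ≠ (0, 0)) : z ∈ (chart f).source := by
  by_cases hf : f = .f5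
  · subst hf; rw [source_f5]; exact h rfl
  · rw [source_ne hf]; trivial

lemma mq_f5 {w : ℝ × ℝ} (hw : w ≠ (0, 0)) : mq (chart .f5 w) = 1 / nq w := by
  have h := (nq_pos hw).ne'
  have h' : nq w = w.1 ^ 2 + w.2 ^ 2 := rfl
  rw [chart_f5]
  simp only [mq]
  field_simp
  rw [h']

/-- outside of the ellipse -/
lemma mq_f5_lt {w : ℝ × ℝ} (hw : w ≠ (0, 0)) (h : nq w < 1) : 1 < mq (chart .f5 w) := by
  rw [mq_f5 hw]
  exact (one_lt_div (nq_pos hw)).mpr h

lemma mq_f5_le {w : ℝ × ℝ} (hw : w ≠ (0, 0)) (h : nq w ≤ 1) : 1 ≤ mq (chart .f5 w) := by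
  rw [mq_f5 hw]
  exact (one_le_div (nq_pos hw)).mpr h

/-- inside of the ellipse -/
lemma mq_in_lt {x y : ℝ} (h1 : x ^ 2 ≤ 1) (h : |y| < 5 * s x) : mq (x, y) < 1 := by
  have h2 := s_sq h1
  have h3 : y ^ 2 < (5 * s x) ^ 2 := sq_lt_sq' (by linarith [neg_abs_le y]) (by
    linarith [le_abs_self y])
  simp only [mq]
  nlinarith

lemma mq_in_le {x y : ℝ} (h1 : x ^ 2 ≤ 1) (h : |y| ≤ 5 * s x) : mq (x, y) ≤ 1 := by
  have h2 := s_sq h1
  have h3 : y ^ 2 ≤ (5 * s x) ^ 2 := sq_le_sq' (by linarith [neg_abs_le y]) (by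
    linarith [le_abs_self y])
  simp only [mq]
  nlinarith

lemma cen_bd (f : Fc) : |cen f| ≤ 4 := by
  cases f <;> simp only [cen] <;> norm_num [abs_le]

lemma abs_eps (f : Fc) : |eps f| = 1 := by
  cases f <;> simp only [eps] <;> norm_num

lemma abs_second {f : Fc} (x y : ℝ) : |eps f * y + cen f * s x| ≤ |y| + 4 * s x := by
  refine (abs_add_le _ _).trans ?_
  rw [abs_mul, abs_mul, abs_eps, one_mul, abs_of_nonneg (s_nonneg x)]
  have := mul_le_mul_of_nonneg_right (cen_bd f) (s_nonneg x)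
  linarith

lemma mq_ne_lt {f : Fc} (hf : f ≠ .f5) {w : ℝ × ℝ} (h : nq w < 1) : mq (chart f w) < 1 := by
  rw [chart_ne hf]
  have h1 := abs_lt_s h
  have h2 : w.1 ^ 2 ≤ 1 := by
    have : nq w = w.1 ^ 2 + w.2 ^ 2 := rfl
    nlinarith [sq_nonneg w.2]
  exact mq_in_lt h2 ((abs_second _ _).trans_lt (by linarith))

lemma mq_ne_le {f : Fc} (hf : f ≠ .f5) {w : ℝ × ℝ} (h : nq w ≤ 1) : mq (chart f w) ≤ 1 := by
  rw [chart_ne hf]
  have h1 := abs_le_s h
  have h2 : w.1 ^ 2 ≤ 1 := by
    have : nq w = w.1 ^ 2 + w.2 ^ 2 := rfl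
    nlinarith [sq_nonneg w.2]
  exact mq_in_le h2 ((abs_second _ _).trans (by linarith))

/-- interiors of faces are disjoint from other faces -/
lemma faces_disj {f f' : Fc} (hne : f ≠ f') {w w' : ℝ × ℝ} (hw : nq w ≤ 1) (hw' : nq w' ≤ 1)
    (h0 : f = .f5 → w ≠ (0, 0)) (h0' : f' = .f5 → w' ≠ (0, 0))
    (h : chart f w = chart f' w') : nq w = 1 := by
  by_contra hc
  have hlt : nq w < 1 := lt_of_le_of_ne hw hc
  by_cases hf : f = .f5
  · subst hf
    have h1 := mq_f5_lt (h0 rfl) hlt
    have h2 := mq_ne_le hne.symm hw'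
    rw [h] at h1
    linarith
  · by_cases hf' : f' = .f5
    · subst hf'
      have h1 := mq_ne_lt hf hlt
      have h2 := mq_f5_le (h0' rfl) hw'
      rw [h] at h1
      linarith
    · rw [chart_ne hf, chart_ne hf', Prod.mk.injEq] at h
      obtain ⟨h1, h2⟩ := h
      have b1 := abs_lt_s hlt
      have b2 := abs_le_s hw'
      rw [h1] at b1 h2
      rw [abs_lt] at b1
      rw [abs_le] at b2
      obtain ⟨b3, b4⟩ := b1
      obtain ⟨b5, b6⟩ := b2
      cases f <;> cases f' <;> first
        | exact absurd rfl hne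
        | exact absurd rfl hf
        | exact absurd rfl hf'
        | (simp only [eps, cen] at h2; linarith)

/-- a piece of the skeleton -/
def Sk (m x₀ x₁ : ℝ) : Set (ℝ × ℝ) := {z | (x₀ ≤ z.1 ∧ z.1 ≤ x₁) ∧ z.2 = m * s z.1}

/-- multipliers -/
def IsMul (m : ℝ) : Prop := m = -5 ∨ m = -3 ∨ m = -1 ∨ m = 1 ∨ m = 3 ∨ m = 5

lemma isMul_ms (j : Z3) : IsMul (ms j) := by cases j <;> simp [IsMul, ms]
lemma isMul_ml (j : Z3) : IsMul (ml j) := by cases j <;> simp [IsMul, ml]

/-- interiors of faces are disjoint from the skeleton -/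
lemma sk_disj {f : Fc} {w : ℝ × ℝ} (hw : nq w ≤ 1) (h0 : f = .f5 → w ≠ (0, 0)) {m x₀ x₁ : ℝ}
    (hm : IsMul m) (hx₀ : -1 ≤ x₀) (hx₁ : x₁ ≤ 1) (h : chart f w ∈ Sk m x₀ x₁) : nq w = 1 := by
  by_contra hc
  have hlt : nq w < 1 := lt_of_le_of_ne hw hc
  obtain ⟨⟨h1, h2⟩, h3⟩ := h
  have habs : |m| ≤ 5 := by
    rcases hm with rfl | rfl | rfl | rfl | rfl | rfl <;> norm_num [abs_le]
  by_cases hf : f = .f5
  · subst hf
    have h4 := mq_f5_lt (h0 rfl) hlt
    have h5 : mq ((chart .f5 w).1, (chart .f5 w).2) ≤ 1 := by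
      apply mq_in_le
      · nlinarith
      · rw [h3, abs_mul, abs_of_nonneg (s_nonneg _)]
        exact mul_le_mul_of_nonneg_right habs (s_nonneg _)
    have h6 : ((chart .f5 w).1, (chart .f5 w).2) = chart .f5 w := rfl
    rw [h6] at h5
    linarith
  · rw [chart_ne hf] at h3
    simp only at h3
    have b1 := abs_lt_s hlt
    rw [abs_lt] at b1
    obtain ⟨b3, b4⟩ := b1
    rcases hm with rfl | rfl | rfl | rfl | rfl | rfl <;> cases f <;> first
      | exact absurd rfl hf
      | (simp only [eps, cen] at h3; linarith)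

/-- the faces cover the plane -/
lemma cover (z : ℝ × ℝ) : ∃ f w, nq w ≤ 1 ∧ (f = .f5 → w ≠ (0, 0)) ∧ chart f w = z := by
  rcases le_or_gt 1 (mq z) with h | h
  · have hz : z ≠ (0, 0) := by
      rintro rfl
      simp only [mq] at h
      norm_num at h
    refine ⟨.f5, (chart .f5).symm z, ?_, ?_, ?_⟩
    · have e : (chart .f5).symm z = (z.1 / mq z, z.2 / 5 / mq z) := rfl
      have hp := mq_pos hz
      have e2 : nq (z.1 / mq z, z.2 / 5 / mq z) = 1 / mq z := by
        have h' : mq z = z.1 ^ 2 + (z.2 / 5) ^ 2 := rfl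
        simp only [nq]
        field_simp
        rw [h']
        ring
      rw [e, e2]
      exact (div_le_one hp).mpr h
    · intro _
      have : (chart .f5).symm z ∈ (chart .f5).source := (chart .f5).map_target (by
        show z ∈ ({(0, 0)}ᶜ : Set (ℝ × ℝ)); exact hz)
      rw [source_f5] at this
      exact this
    · exact (chart .f5).right_inv (by show z ∈ ({(0, 0)}ᶜ : Set (ℝ × ℝ)); exact hz)
  · obtain ⟨x, y⟩ := z
    simp only [mq] at h
    have hx : x ^ 2 ≤ 1 := by nlinarith [sq_nonneg (y / 5)]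
    have hs := s_sq hx
    have hs0 := s_nonneg x
    have hy : |y / 5| < s x := abs_lt_s h
    rw [abs_lt] at hy
    obtain ⟨hy1, hy2⟩ := hy
    have key : ∀ f : Fc, f ≠ .f5 → |y - cen f * s x| ≤ s x →
        ∃ f w, nq w ≤ 1 ∧ (f = .f5 → w ≠ (0, 0)) ∧ chart f w = (x, y) := by
      intro f hf hb
      refine ⟨f, (x, eps f * (y - cen f * s x)), ?_, fun h => absurd h hf, ?_⟩
      · simp only [nq]
        have e1 := eps_sq f
        have e2 : (eps f * (y - cen f * s x)) ^ 2 = (y - cen f * s x) ^ 2 := by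
          linear_combination (y - cen f * s x) ^ 2 * e1
        rw [e2]
        have e3 : (y - cen f * s x) ^ 2 ≤ s x ^ 2 := sq_le_sq' (by
          linarith [neg_abs_le (y - cen f * s x)]) (by linarith [le_abs_self (y - cen f * s x)])
        linarith
      · rw [chart_ne hf]
        apply Prod.ext
        · rfl
        · simp only
          linear_combination (y - cen f * s x) * eps_sq f
    rcases le_total y (-3 * s x) with h1 | h1
    · exact key .f0 (by decide) (by simp only [cen]; rw [abs_le]; constructor <;> linarith)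
    · rcases le_total y (-1 * s x) with h2 | h2
      · exact key .f1 (by decide) (by simp only [cen]; rw [abs_le]; constructor <;> linarith)
      · rcases le_total y (1 * s x) with h3 | h3
        · exact key .f2 (by decide) (by simp only [cen]; rw [abs_le]; constructor <;> linarith)
        · rcases le_total y (3 * s x) with h4 | h4
          · exact key .f3 (by decide) (by simp only [cen]; rw [abs_le]; constructor <;> linarith)
          · exact key .f4 (by decide) (by simp only [cen]; rw [abs_le]; constructor <;> linarith)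

end Pool.Agent.R30.Hex
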