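import Pool.Agent.R30.Thr.Defs

set_option autoImplicit false

/-! Definitions: topological multigraphs in the plane, simple drawings, homotopic parallel edges,
`k`-plane and optimal 3-plane graphs, forests. -/

namespace Pool.Agent.R30.Hex

open Pool.Agent.R30.Thr (IsArc CrossesAt)

/-- A topological multigraph without self-loops in the plane `ℝ × ℝ`: the vertices are distinct
points, every edge `e` has two different end vertices `src e` and `tgt e` and is drawn as a Jordan
arc `arc e` between their points, and no arc passes through a vertex other than its ends. Parallel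
edges are allowed. -/
structure TopGraph (V E : Type) where
  /-- the point of a vertex -/
  pos : V → ℝ × ℝ
  /-- the first end of an edge -/
  src : E → V
  /-- the second end of an edge -/
  tgt : E → V
  /-- the arc of an edge -/
  arc : E → Set (ℝ × ℝ)
  pos_injective : Function.Injective pos
  src_ne_tgt : ∀ e, src e ≠ tgt e
  arc_isArc : ∀ e, IsArc (arc e) (pos (src e)) (pos (tgt e))
  arc_avoids : ∀ e v, pos v ∈ arc e → v = src e ∨ v = tgt e

namespace TopGraph

variable {V E : Type} (G : TopGraph V E)

/-- The edge `e` joins the vertices `a` and `b`. -/
def Joins (e : E) (a b : V) : Prop :=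
  (G.src e = a ∧ G.tgt e = b) ∨ (G.src e = b ∧ G.tgt e = a)

/-- The vertex `v` is an end of the edge `e`. -/
def IsEnd (v : V) (e : E) : Prop := v = G.src e ∨ v = G.tgt e

/-- The drawing is simple: two different edges meet only in vertices (which are then common ends),
or they have no common end and share exactly one point, and this point is a proper crossing. -/
def IsSimple : Prop :=
  ∀ e f, e ≠ f → G.arc e ∩ G.arc f ⊆ Set.range G.pos ∨
    ((∀ v, ¬ (G.IsEnd v e ∧ G.IsEnd v f)) ∧
      ∃ p, G.arc e ∩ G.arc f = {p} ∧ CrossesAt (G.arc e) (G.arc f) p)

/-- The edges of the set `S` that cross the edge `e`: those edges `f ≠ e` of `S` whose arc shares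
with the arc of `e` a point that is not a vertex. -/
def crossings (S : Set E) (e : E) : Set E :=
  {f | f ∈ S ∧ f ≠ e ∧ ¬ G.arc e ∩ G.arc f ⊆ Set.range G.pos}

/-- The subgraph with edge set `S` (with the drawing inherited from `G`) is `k`-plane: every edge
of `S` is crossed by at most `k` edges of `S`. -/
def IsPlane (k : ℕ) (S : Set E) : Prop := ∀ e ∈ S, (G.crossings S e).encard ≤ k

/-- There are no homotopic parallel edges: for two different edges `e`, `f` with the same ends,
every region (connected component) of the complement of the closed curve formed by the two arcs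
contains a vertex. -/
def NoHomotopic : Prop :=
  ∀ e f, e ≠ f → G.Joins e (G.src f) (G.tgt f) → ∀ z, z ∉ G.arc e ∪ G.arc f →
    ∃ v, G.pos v ∈ connectedComponentIn (G.arc e ∪ G.arc f)ᶜ z

/-- The edge set `S` is a forest: it contains no cycle, where a cycle of length `n + 1` consists of
different vertices `v 0, …, v n` and different edges `e 0, …, e n` such that `e i` joins `v i` and
`v (i + 1)`, the index being read modulo `n + 1` (two parallel edges form a cycle of length 2). -/
def IsForest (S : Set E) : Prop :=
  ¬ ∃ (n : ℕ) (v : Fin (n + 1) → V) (e : Fin (n + 1) → E), Function.Injective v ∧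
    Function.Injective e ∧ ∀ i, e i ∈ S ∧ G.Joins (e i) (v i) (v (i + 1))

/-- An optimal 3-plane graph: a simple drawing without homotopic parallel edges in which every edge
is crossed at most three times and which has exactly `5.5 n - 11` edges. -/
def IsOptimal3Plane [Fintype V] [Fintype E] : Prop :=
  G.IsSimple ∧ G.NoHomotopic ∧ G.IsPlane 3 Set.univ ∧
    2 * Fintype.card E + 22 = 11 * Fintype.card V

end TopGraph

end Pool.Agent.R30.Hex
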