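import Pool.Agent.R30.Hex.Defs
import Pool.Agent.R30.Thr.Final

set_option autoImplicit false

/-! The eight chords of a hexagon inscribed in the unit disk. -/

namespace Pool.Agent.R30.Hex

open Set Topology Pool.Agent.R30.Thr

/-- the corners of the hexagon -/
inductive Hx | P | b | c | d | Q | a
  deriving DecidableEq, Fintype

/-- the eight chords -/
inductive Ch | Pc | Pd | PQ | bd | bQ | ab | cQ | ad
  deriving DecidableEq, Fintype

/-- the points of the corners -/
noncomputable def hv : Hx → ℝ × ℝ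
  | .P => (-1, 0)
  | .b => (-3/5, 4/5)
  | .c => (0, 1)
  | .d => (3/5, 4/5)
  | .Q => (1, 0)
  | .a => (0, -1)

/-- left end of a chord -/
def lh : Ch → Hx
  | .Pc => .P | .Pd => .P | .PQ => .P | .bd => .b | .bQ => .b | .ab => .b | .cQ => .c | .ad => .a

/-- right end of a chord -/
def rh : Ch → Hx
  | .Pc => .c | .Pd => .d | .PQ => .Q | .bd => .d | .bQ => .Q | .ab => .a | .cQ => .Q | .ad => .d

/-- the function whose graph is the chord -/
noncomputable def g : Ch → ℝ → ℝ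
  | .Pc, x => x + 1
  | .Pd, x => (x + 1) / 2
  | .PQ, x => (|x| - 1) / 5
  | .bd, _ => 4 / 5
  | .bQ, x => (1 - x) / 2
  | .ab, x => -1 - 3 * x
  | .cQ, x => 1 - x
  | .ad, x => 3 * x - 1

/-- the chord as a set -/
def C (t : Ch) : Set (ℝ × ℝ) := {z | z.1 ^ 2 + z.2 ^ 2 ≤ 1 ∧ z.2 = g t z.1}

/-- do two chords cross? -/
def cr : Ch → Ch → Bool
  | .Pc, .bd => true | .Pc, .bQ => true | .Pc, .ab => true
  | .Pd, .bQ => true | .Pd, .ab => true | .Pd, .cQ => true
  | .PQ, .ab => true | .PQ, .ad => true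
  | .bd, .Pc => true | .bd, .cQ => true
  | .bQ, .Pc => true | .bQ, .Pd => true | .bQ, .ad => true
  | .ab, .Pc => true | .ab, .Pd => true | .ab, .PQ => true
  | .cQ, .Pd => true | .cQ, .bd => true | .cQ, .ad => true
  | .ad, .PQ => true | .ad, .bQ => true | .ad, .cQ => true
  | _, _ => false

/-- crossing point of two chords -/
noncomputable def cp : Ch → Ch → ℝ × ℝ
  | .Pc, .bd => (-1/5, 4/5) | .Pc, .bQ => (-1/3, 2/3) | .Pc, .ab => (-1/2, 1/2)
  | .Pd, .bQ => (0, 1/2) | .Pd, .ab => (-3/7, 2/7) | .Pd, .cQ => (1/3, 2/3)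
  | .PQ, .ab => (-2/7, -1/7) | .PQ, .ad => (2/7, -1/7)
  | .bd, .Pc => (-1/5, 4/5) | .bd, .cQ => (1/5, 4/5)
  | .bQ, .Pc => (-1/3, 2/3) | .bQ, .Pd => (0, 1/2) | .bQ, .ad => (3/7, 2/7)
  | .ab, .Pc => (-1/2, 1/2) | .ab, .Pd => (-3/7, 2/7) | .ab, .PQ => (-2/7, -1/7)
  | .cQ, .Pd => (1/3, 2/3) | .cQ, .bd => (1/5, 4/5) | .cQ, .ad => (1/2, 1/2)
  | .ad, .PQ => (2/7, -1/7) | .ad, .bQ => (3/7, 2/7) | .ad, .cQ => (1/2, 1/2)
  | _, _ => (0, 0)

lemma hv_injective : Function.Injective hv := by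
  intro x y h
  cases x <;> cases y <;> first
    | rfl
    | (exfalso; simp only [hv, Prod.mk.injEq] at h; norm_num at h)

lemma hv_circle (h : Hx) : (hv h).1 ^ 2 + (hv h).2 ^ 2 = 1 := by
  cases h <;> simp only [hv] <;> norm_num

lemma fac {x p q : ℝ} (hpq : p ≤ q) : (x - p) * (x - q) ≤ 0 ↔ p ≤ x ∧ x ≤ q := by
  constructor
  · intro h
    constructor
    · by_contra hc; push Not at hc; nlinarith
    · by_contra hc; push Not at hc; nlinarith
  · rintro ⟨h1, h2⟩; nlinarith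

lemma mem_C_iff (t : Ch) (z : ℝ × ℝ) :
    z ∈ C t ↔ ((hv (lh t)).1 ≤ z.1 ∧ z.1 ≤ (hv (rh t)).1) ∧ z.2 = g t z.1 := by
  obtain ⟨x, y⟩ := z
  rw [← fac (by cases t <;> simp only [hv, lh, rh] <;> norm_num)]
  simp only [C, mem_ofPred_eq]
  constructor
  · rintro ⟨h, rfl⟩
    refine ⟨?_, rfl⟩
    cases t <;> simp only [hv, lh, rh, g] at h ⊢
    · nlinarith
    · nlinarith
    · have h1 : x ^ 2 = |x| ^ 2 := (sq_abs x).symm
      have h2 : (x - -1) * (x - 1) = |x| ^ 2 - 1 := by rw [← h1]; ring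
      rw [h2]
      rw [h1] at h
      have := abs_nonneg x
      nlinarith
    · nlinarith
    · nlinarith
    · nlinarith
    · nlinarith
    · nlinarith
  · rintro ⟨h, rfl⟩
    refine ⟨?_, rfl⟩
    cases t <;> simp only [hv, lh, rh, g] at h ⊢
    · nlinarith
    · nlinarith
    · have h1 : x ^ 2 = |x| ^ 2 := (sq_abs x).symm
      have h2 : (x - -1) * (x - 1) = |x| ^ 2 - 1 := by rw [← h1]; ring
      rw [h2] at h
      rw [h1]
      have := abs_nonneg x
      have h3 : |x| ≤ 1 := by nlinarith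
      nlinarith
    · nlinarith
    · nlinarith
    · nlinarith
    · nlinarith
    · nlinarith

/-- a point of a chord on the unit circle is an end -/
lemma C_circle {t : Ch} {z : ℝ × ℝ} (hz : z ∈ C t) (h1 : z.1 ^ 2 + z.2 ^ 2 = 1) :
    z = hv (lh t) ∨ z = hv (rh t) := by
  obtain ⟨x, y⟩ := z
  obtain ⟨-, hy⟩ := hz
  simp only at h1 hy
  subst hy
  have key : x = (hv (lh t)).1 ∨ x = (hv (rh t)).1 := by
    have : (x - (hv (lh t)).1) * (x - (hv (rh t)).1) = 0 := by
      cases t <;> simp only [hv, lh, rh, g] at h1 ⊢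
      · nlinarith
      · nlinarith
      · have h2 : x ^ 2 = |x| ^ 2 := (sq_abs x).symm
        have h3 : (x - -1) * (x - 1) = (|x| - 1) * (|x| + 1) := by
          have : (x - -1) * (x - 1) = x ^ 2 - 1 := by ring
          rw [this, h2]; ring
        rw [h3]
        rw [h2] at h1
        have h4 := abs_nonneg x
        have h5 : (|x| - 1) * (26 * |x| + 24) = 0 := by nlinarith
        rcases mul_eq_zero.mp h5 with h | h
        · rw [h, zero_mul]
        · exfalso; linarith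
      · nlinarith
      · nlinarith
      · nlinarith
      · nlinarith
      · nlinarith
    rcases mul_eq_zero.mp this with h | h
    · left; linarith
    · right; linarith
  rcases key with h | h
  · left; subst h
    cases t <;> simp only [hv, lh, g] <;> norm_num
  · right; subst h
    cases t <;> simp only [hv, rh, g] <;> norm_num

lemma lh_mem (t : Ch) : hv (lh t) ∈ C t := by
  refine ⟨(hv_circle _).le, ?_⟩
  cases t <;> simp only [hv, lh, g] <;> norm_num

lemma rh_mem (t : Ch) : hv (rh t) ∈ C t := by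
  refine ⟨(hv_circle _).le, ?_⟩
  cases t <;> simp only [hv, rh, g] <;> norm_num

lemma zero_notMem (t : Ch) : (0, 0) ∉ C t := by
  rintro ⟨-, h⟩
  cases t <;> simp only [g] at h <;> norm_num at h

lemma lh_ne_rh (t : Ch) : lh t ≠ rh t := by cases t <;> decide

/-- the graph of a continuous function over an interval is an arc -/
lemma isArc_graph {φ : ℝ → ℝ} (hφ : Continuous φ) {x₀ x₁ : ℝ} (h : x₀ < x₁) :
    IsArc {z : ℝ × ℝ | (x₀ ≤ z.1 ∧ z.1 ≤ x₁) ∧ z.2 = φ z.1} (x₀, φ x₀) (x₁, φ x₁) := by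
  refine ⟨fun t => (x₀ + t * (x₁ - x₀), φ (x₀ + t * (x₁ - x₀))), ?_, ?_, ?_, ?_, ?_⟩
  · apply Continuous.continuousOn
    fun_prop
  · intro s _ t _ hst
    simp only [Prod.mk.injEq] at hst
    have h1 : (s - t) * (x₁ - x₀) = 0 := by linarith [hst.1]
    rcases mul_eq_zero.mp h1 with h2 | h2
    · linarith
    · linarith
  · simp
  · simp
  · ext ⟨x, y⟩
    constructor
    · rintro ⟨t, ht, h1⟩
      simp only [Prod.mk.injEq] at h1
      obtain ⟨rfl, rfl⟩ := h1
      refine ⟨⟨?_, ?_⟩, rfl⟩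
      · show x₀ ≤ x₀ + t * (x₁ - x₀)
        have := mul_nonneg ht.1 (sub_pos.mpr h).le
        linarith
      · show x₀ + t * (x₁ - x₀) ≤ x₁
        have := mul_nonneg (sub_nonneg.mpr ht.2) (sub_pos.mpr h).le
        linarith
    · rintro ⟨⟨h1, h2⟩, h3⟩
      simp only at h1 h2 h3
      subst h3
      have hd : 0 < x₁ - x₀ := sub_pos.mpr h
      refine ⟨(x - x₀) / (x₁ - x₀), ⟨by apply div_nonneg <;> linarith, ?_⟩, ?_⟩
      · rw [div_le_one hd]; linarith
      · have : x₀ + (x - x₀) / (x₁ - x₀) * (x₁ - x₀) = x := by field_simp; ring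
        simp only [this]

lemma g_cont (t : Ch) : Continuous (g t) := by
  cases t <;> (unfold g; fun_prop)

lemma C_isArc (t : Ch) : IsArc (C t) (hv (lh t)) (hv (rh t)) := by
  have h1 : C t = {z : ℝ × ℝ | ((hv (lh t)).1 ≤ z.1 ∧ z.1 ≤ (hv (rh t)).1) ∧ z.2 = g t z.1} := by
    ext z; exact mem_C_iff t z
  have hlt : (hv (lh t)).1 < (hv (rh t)).1 := by
    cases t <;> simp only [hv, lh, rh] <;> norm_num
  have := isArc_graph (g_cont t) hlt
  rw [← h1] at this
  have e1 : ((hv (lh t)).1, g t (hv (lh t)).1) = hv (lh t) :=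
    Prod.ext rfl (lh_mem t).2.symm
  have e2 : ((hv (rh t)).1, g t (hv (rh t)).1) = hv (rh t) :=
    Prod.ext rfl (rh_mem t).2.symm
  rwa [e1, e2] at this

end Pool.Agent.R30.Hex
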