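import Pool.Agent.R30.Hex.Disk

set_option autoImplicit false

/-! Intersections and crossings of the chords; paths from points of the disk to corners. -/

namespace Pool.Agent.R30.Hex

open Set Topology Pool.Agent.R30.Thr

/-- a common corner of two chords that do not cross (if there is one) -/
def cv : Ch → Ch → Hx
  | .Pc, .Pd => .P | .Pc, .PQ => .P | .Pc, .cQ => .c
  | .Pd, .Pc => .P | .Pd, .PQ => .P | .Pd, .bd => .d | .Pd, .ad => .d
  | .PQ, .Pc => .P | .PQ, .Pd => .P | .PQ, .bQ => .Q | .PQ, .cQ => .Q
  | .bd, .Pd => .d | .bd, .bQ => .b | .bd, .ab => .b | .bd, .ad => .d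
  | .bQ, .PQ => .Q | .bQ, .bd => .b | .bQ, .ab => .b | .bQ, .cQ => .Q
  | .ab, .bd => .b | .ab, .bQ => .b | .ab, .ad => .a
  | .cQ, .Pc => .c | .cQ, .PQ => .Q | .cQ, .bQ => .Q
  | .ad, .Pd => .d | .ad, .bd => .d | .ad, .ab => .a
  | _, _ => .P

/-- intersection of two chords -/
lemma inter_C {t t' : Ch} (hne : t ≠ t') {z : ℝ × ℝ} (h : z ∈ C t) (h' : z ∈ C t') :
    (cr t t' = true ∧ z = cp t t') ∨ (cr t t' = false ∧ z.1 ^ 2 + z.2 ^ 2 = 1) := by
  rw [mem_C_iff] at h h'
  obtain ⟨x, y⟩ := z
  obtain ⟨⟨h1, h2⟩, h3⟩ := h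
  obtain ⟨⟨h4, h5⟩, h6⟩ := h'
  simp only at h1 h2 h3 h4 h5 h6 ⊢
  have key : (cr t t' = true ∧ (x, y) = cp t t') ∨ (cr t t' = false ∧ (x, y) = hv (cv t t')) := by
    cases t <;> cases t' <;> first
      | exact absurd rfl hne
      | (left
         refine ⟨rfl, ?_⟩
         simp only [hv, lh, rh, g, cp] at h1 h2 h3 h4 h5 h6 ⊢
         first
          | (apply Prod.ext <;> simp only <;> linarith)
          | (rcases le_total 0 x with hx | hx
             · rw [abs_of_nonneg hx] at *
               first
                | (exfalso; linarith)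
                | (apply Prod.ext <;> simp only <;> linarith)
             · rw [abs_of_nonpos hx] at *
               first
                | (exfalso; linarith)
                | (apply Prod.ext <;> simp only <;> linarith)))
      | (right
         refine ⟨rfl, ?_⟩
         simp only [hv, lh, rh, g, cv] at h1 h2 h3 h4 h5 h6 ⊢
         first
          | (apply Prod.ext <;> simp only <;> linarith)
          | (exfalso; linarith)
          | (rcases le_total 0 x with hx | hx
             · rw [abs_of_nonneg hx] at *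
               first
                | (exfalso; linarith)
                | (apply Prod.ext <;> simp only <;> linarith)
             · rw [abs_of_nonpos hx] at *
               first
                | (exfalso; linarith)
                | (apply Prod.ext <;> simp only <;> linarith)))
  rcases key with h | ⟨h, h'⟩
  · exact Or.inl h
  · right
    refine ⟨h, ?_⟩
    have := hv_circle (cv t t')
    rw [← h'] at this
    exact this

/-- slope of a straight chord -/
noncomputable def sl : Ch → ℝ
  | .Pc => 1 | .Pd => 1/2 | .PQ => 0 | .bd => 0 | .bQ => -1/2 | .ab => -3 | .cQ => -1 | .ad => 3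

/-- intercept of a straight chord -/
noncomputable def ic : Ch → ℝ
  | .Pc => 1 | .Pd => 1/2 | .PQ => 0 | .bd => 4/5 | .bQ => 1/2 | .ab => -1 | .cQ => 1 | .ad => -1

lemma g_lin {t : Ch} (ht : t ≠ .PQ) (x : ℝ) : g t x = sl t * x + ic t := by
  cases t <;> first
    | exact absurd rfl ht
    | (simp only [g, sl, ic]; ring)

/-- two lines cross properly -/
lemma crossesAt_lines {A B : Set (ℝ × ℝ)} {p q p' q' lo hi : ℝ} (hne : p ≠ p') {z : ℝ × ℝ}
    (hz : lo < z.1 ∧ z.1 < hi) (h1 : z.2 = p * z.1 + q) (h2 : z.2 = p' * z.1 + q')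
    (hA : ∀ w : ℝ × ℝ, lo < w.1 → w.1 < hi → (w ∈ A ↔ w.2 = p * w.1 + q))
    (hB : ∀ w : ℝ × ℝ, lo < w.1 → w.1 < hi → (w ∈ B ↔ w.2 = p' * w.1 + q')) :
    CrossesAt A B z := by
  have hd : p - p' ≠ 0 := sub_ne_zero.mpr hne
  let h : ℝ × ℝ ≃ₜ ℝ × ℝ :=
    { toFun := fun w => (w.2 - p' * w.1 - q', w.2 - p * w.1 - q)
      invFun := fun v => ((v.1 - v.2 - q + q') / (p - p'),
        v.2 + p * ((v.1 - v.2 - q + q') / (p - p')) + q)
      left_inv := by
        intro w
        apply Prod.ext
        · simp only; field_simp; ring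
        · simp only; field_simp; ring
      right_inv := by
        intro w
        apply Prod.ext
        · simp only; field_simp; ring
        · simp only; ring
      continuous_toFun := by fun_prop
      continuous_invFun := by fun_prop }
  refine crossesAt_of_homeo h (S := {w | lo < w.1 ∧ w.1 < hi}) ?_ hz ?_ ?_ ?_
  · exact (isOpen_lt continuous_const continuous_fst).inter
      (isOpen_lt continuous_fst continuous_const)
  · show (z.2 - p' * z.1 - q', z.2 - p * z.1 - q) = (0, 0)
    apply Prod.ext
    · simp only; linarith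
    · simp only; linarith
  · intro w hw
    rw [hA w hw.1 hw.2]
    show _ ↔ w.2 - p * w.1 - q = 0
    constructor <;> intro hh <;> linarith
  · intro w hw
    rw [hB w hw.1 hw.2]
    show _ ↔ w.2 - p' * w.1 - q' = 0
    constructor <;> intro hh <;> linarith

lemma cross_str {t t' : Ch} (ht : t ≠ .PQ) (ht' : t' ≠ .PQ) (h : cr t t' = true) :
    CrossesAt (C t) (C t') (cp t t') := by
  have m : ∀ t : Ch, t ≠ .PQ → ∀ lo hi : ℝ, (hv (lh t)).1 ≤ lo → hi ≤ (hv (rh t)).1 →
      ∀ w : ℝ × ℝ, lo < w.1 → w.1 < hi → (w ∈ C t ↔ w.2 = sl t * w.1 + ic t) := by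
    intro t ht lo hi h1 h2 w h3 h4
    rw [mem_C_iff, g_lin ht]
    constructor
    · exact fun hh => hh.2
    · exact fun hh => ⟨⟨by linarith, by linarith⟩, hh⟩
  refine crossesAt_lines (lo := max (hv (lh t)).1 (hv (lh t')).1)
    (hi := min (hv (rh t)).1 (hv (rh t')).1) (p := sl t) (q := ic t) (p' := sl t') (q' := ic t')
    ?_ ?_ ?_ ?_ (m t ht _ _ (le_max_left _ _) (min_le_left _ _))
    (m t' ht' _ _ (le_max_right _ _) (min_le_right _ _))
  · cases t <;> cases t' <;> first
      | exact absurd h (by decide)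
      | (simp only [sl]; norm_num)
  · rw [max_lt_iff, lt_min_iff]
    cases t <;> cases t' <;> first
      | exact absurd h (by decide)
      | (simp only [hv, lh, rh, cp]; norm_num)
      | exact absurd rfl ht
      | exact absurd rfl ht'
  · cases t <;> cases t' <;> first
      | exact absurd h (by decide)
      | exact absurd rfl ht
      | exact absurd rfl ht'
      | (simp only [sl, ic, cp]; norm_num)
  · cases t <;> cases t' <;> first
      | exact absurd h (by decide)
      | exact absurd rfl ht
      | exact absurd rfl ht'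
      | (simp only [sl, ic, cp]; norm_num)

lemma cross_PQab : CrossesAt (C .PQ) (C .ab) (-2/7, -1/7) := by
  refine crossesAt_lines (lo := -3/5) (hi := 0) (p := -1/5) (q := -1/5) (p' := -3) (q' := -1)
    (by norm_num) (by norm_num) (by norm_num) (by norm_num) ?_ ?_
  · intro w h1 h2
    rw [mem_C_iff]
    simp only [hv, lh, rh, g]
    rw [abs_of_neg h2]
    constructor
    · rintro ⟨-, hh⟩; linarith
    · intro hh; exact ⟨⟨by linarith, by linarith⟩, by linarith⟩
  · intro w h1 h2
    rw [mem_C_iff]
    simp only [hv, lh, rh, g]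
    constructor
    · rintro ⟨-, hh⟩; linarith
    · intro hh; exact ⟨⟨by linarith, by linarith⟩, by linarith⟩

lemma cross_PQad : CrossesAt (C .PQ) (C .ad) (2/7, -1/7) := by
  refine crossesAt_lines (lo := 0) (hi := 3/5) (p := 1/5) (q := -1/5) (p' := 3) (q' := -1)
    (by norm_num) (by norm_num) (by norm_num) (by norm_num) ?_ ?_
  · intro w h1 h2
    rw [mem_C_iff]
    simp only [hv, lh, rh, g]
    rw [abs_of_pos h1]
    constructor
    · rintro ⟨-, hh⟩; linarith
    · intro hh; exact ⟨⟨by linarith, by linarith⟩, by linarith⟩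
  · intro w h1 h2
    rw [mem_C_iff]
    simp only [hv, lh, rh, g]
    constructor
    · rintro ⟨-, hh⟩; linarith
    · intro hh; exact ⟨⟨by linarith, by linarith⟩, by linarith⟩

/-- crossing chords cross properly -/
lemma cross_C {t t' : Ch} (h : cr t t' = true) : CrossesAt (C t) (C t') (cp t t') := by
  by_cases h1 : t = .PQ
  · subst h1
    cases t' <;> first
      | exact absurd h (by decide)
      | exact cross_PQab
      | exact cross_PQad
  · by_cases h2 : t' = .PQ
    · subst h2
      cases t <;> first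
        | exact absurd h (by decide)
        | exact cross_PQab.symm
        | exact cross_PQad.symm
    · exact cross_str h1 h2 h

lemma cp_mem {t t' : Ch} (h : cr t t' = true) : cp t t' ∈ C t ∧ cp t t' ∈ C t' ∧
    (cp t t').1 ^ 2 + (cp t t').2 ^ 2 < 1 := by
  cases t <;> cases t' <;> first
    | exact absurd h (by decide)
    | (simp only [C, cp, g, mem_ofPred_eq]
       norm_num [abs_of_pos, abs_of_neg])

/-! ### reaching a corner -/

lemma mem_segment' {w v z : ℝ × ℝ} (h : z ∈ segment ℝ w v) : ∃ r s : ℝ, 0 ≤ r ∧ 0 ≤ s ∧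
    r + s = 1 ∧ z.1 = r * w.1 + s * v.1 ∧ z.2 = r * w.2 + s * v.2 := by
  obtain ⟨r, s, hr, hs, hrs, rfl⟩ := h
  exact ⟨r, s, hr, hs, hrs, by simp, by simp⟩

lemma avoid_zero {w v₁ v₂ : ℝ × ℝ} (hw : w ≠ (0, 0)) (hc : v₁.1 * v₂.2 - v₁.2 * v₂.1 ≠ 0) :
    (0, 0) ∉ segment ℝ w v₁ ∨ (0, 0) ∉ segment ℝ w v₂ := by
  by_contra hcon
  push Not at hcon
  obtain ⟨h1, h2⟩ := hcon
  obtain ⟨r, s, hr, hs, hrs, e1, e2⟩ := mem_segment' h1
  obtain ⟨r', s', hr', hs', hrs', e1', e2'⟩ := mem_segment' h2
  simp only at e1 e2 e1' e2'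
  have hs0 : s ≠ 0 := by
    rintro rfl
    have : r = 1 := by linarith
    subst this
    exact hw (Prod.ext (by simp only; linarith) (by simp only; linarith))
  have hs0' : s' ≠ 0 := by
    rintro rfl
    have : r' = 1 := by linarith
    subst this
    exact hw (Prod.ext (by simp only; linarith) (by simp only; linarith))
  have k1 : w.1 * v₁.2 - w.2 * v₁.1 = 0 := by
    have : s * (w.1 * v₁.2 - w.2 * v₁.1) = 0 := by
      linear_combination w.2 * e1 - w.1 * e2
    exact (mul_eq_zero.mp this).resolve_left hs0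
  have k2 : w.1 * v₂.2 - w.2 * v₂.1 = 0 := by
    have : s' * (w.1 * v₂.2 - w.2 * v₂.1) = 0 := by
      linear_combination w.2 * e1' - w.1 * e2'
    exact (mul_eq_zero.mp this).resolve_left hs0'
  have g1 : w.1 * (v₁.1 * v₂.2 - v₁.2 * v₂.1) = 0 := by
    linear_combination v₁.1 * k2 - v₂.1 * k1
  have g2 : w.2 * (v₁.1 * v₂.2 - v₁.2 * v₂.1) = 0 := by
    linear_combination v₁.2 * k2 - v₂.2 * k1
  exact hw (Prod.ext ((mul_eq_zero.mp g1).resolve_right hc) ((mul_eq_zero.mp g2).resolve_right hc))

lemma side_pos {t : Ch} (ht : t ≠ .PQ) {w v : ℝ × ℝ} (h1 : g t w.1 < w.2) (h2 : g t v.1 < v.2) :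
    ∀ z ∈ segment ℝ w v, g t z.1 < z.2 := by
  intro z hz
  obtain ⟨r, s, hr, hs, hrs, e1, e2⟩ := mem_segment' hz
  rw [g_lin ht] at *
  rw [e1, e2]
  rcases hr.eq_or_lt with h | h
  · subst h
    have : s = 1 := by linarith
    subst this; linarith
  · have : r = 1 - s := by linarith
    subst this
    nlinarith

lemma side_neg {t : Ch} (ht : t ≠ .PQ) {w v : ℝ × ℝ} (h1 : w.2 < g t w.1) (h2 : v.2 < g t v.1) :
    ∀ z ∈ segment ℝ w v, z.2 < g t z.1 := by
  intro z hz
  obtain ⟨r, s, hr, hs, hrs, e1, e2⟩ := mem_segment' hz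
  rw [g_lin ht] at *
  rw [e1, e2]
  rcases hr.eq_or_lt with h | h
  · subst h
    have : s = 1 := by linarith
    subst this; linarith
  · have : r = 1 - s := by linarith
    subst this
    nlinarith

/-- the conclusion of the reaching lemma -/
def Reach (t : Ch) (w : ℝ × ℝ) : Prop :=
  ∃ h : Hx, (h ≠ lh t ∧ h ≠ rh t) ∧ (w ∉ C t → ∀ z ∈ segment ℝ w (hv h), z ∉ C t) ∧
    (w ≠ (0, 0) → (0, 0) ∉ segment ℝ w (hv h))

lemma pick {t : Ch} {w : ℝ × ℝ} (v₁ v₂ : Hx) (n1 : v₁ ≠ lh t ∧ v₁ ≠ rh t)
    (n2 : v₂ ≠ lh t ∧ v₂ ≠ rh t) (hc : (hv v₁).1 * (hv v₂).2 - (hv v₁).2 * (hv v₂).1 ≠ 0)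
    (s1 : w ∉ C t → ∀ z ∈ segment ℝ w (hv v₁), z ∉ C t)
    (s2 : w ∉ C t → ∀ z ∈ segment ℝ w (hv v₂), z ∉ C t) : Reach t w := by
  by_cases hw : w = (0, 0)
  · exact ⟨v₁, n1, s1, fun h => absurd hw h⟩
  · rcases avoid_zero hw hc with h | h
    · exact ⟨v₁, n1, s1, fun _ => h⟩
    · exact ⟨v₂, n2, s2, fun _ => h⟩

lemma pos_seg {t : Ch} (ht : t ≠ .PQ) {w : ℝ × ℝ} (v : Hx) (h1 : g t w.1 < w.2)
    (h2 : g t (hv v).1 < (hv v).2) : w ∉ C t → ∀ z ∈ segment ℝ w (hv v), z ∉ C t :=
  fun _ z hz hzc => absurd hzc.2 (side_pos ht h1 h2 z hz).ne'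

lemma neg_seg {t : Ch} (ht : t ≠ .PQ) {w : ℝ × ℝ} (v : Hx) (h1 : w.2 < g t w.1)
    (h2 : (hv v).2 < g t (hv v).1) : w ∉ C t → ∀ z ∈ segment ℝ w (hv v), z ∉ C t :=
  fun _ z hz hzc => absurd hzc.2 (side_neg ht h1 h2 z hz).ne

lemma one_pos {t : Ch} (ht : t ≠ .PQ) {w : ℝ × ℝ} (v : Hx) (n : v ≠ lh t ∧ v ≠ rh t)
    (h0 : 0 < g t 0) (h1 : g t w.1 < w.2) (h2 : g t (hv v).1 < (hv v).2) : Reach t w :=
  ⟨v, n, pos_seg ht v h1 h2, fun _ hz => by
    have := side_pos ht h1 h2 _ hz
    simp only at this
    linarith⟩

lemma one_neg {t : Ch} (ht : t ≠ .PQ) {w : ℝ × ℝ} (v : Hx) (n : v ≠ lh t ∧ v ≠ rh t)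
    (h0 : g t 0 < 0) (h1 : w.2 < g t w.1) (h2 : (hv v).2 < g t (hv v).1) : Reach t w :=
  ⟨v, n, neg_seg ht v h1 h2, fun _ hz => by
    have := side_neg ht h1 h2 _ hz
    simp only at this
    linarith⟩

lemma reach (t : Ch) {w : ℝ × ℝ} (hw : w.1 ^ 2 + w.2 ^ 2 ≤ 1) : Reach t w := by
  rcases lt_trichotomy w.2 (g t w.1) with h | h | h
  · -- below
    cases t
    · exact pick .Q .a (by decide) (by decide) (by simp only [hv]; norm_num)
        (neg_seg (by decide) _ h (by simp only [hv, g]; norm_num))
        (neg_seg (by decide) _ h (by simp only [hv, g]; norm_num))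
    · exact pick .Q .a (by decide) (by decide) (by simp only [hv]; norm_num)
        (neg_seg (by decide) _ h (by simp only [hv, g]; norm_num))
        (neg_seg (by decide) _ h (by simp only [hv, g]; norm_num))
    · -- the bent chord
      have key : ∀ z ∈ segment ℝ w (hv .a), z.2 < g .PQ z.1 := by
        intro z hz
        obtain ⟨r, s, hr, hs, hrs, e1, e2⟩ := mem_segment' hz
        simp only [hv, g] at e1 e2 h ⊢
        rw [e1, e2]
        have : |r * w.1 + s * 0| = r * |w.1| := by
          rw [mul_zero, add_zero, abs_mul, abs_of_nonneg hr]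
        rw [this]
        have : s = 1 - r := by linarith
        subst this
        rcases hr.eq_or_lt with h0 | h0
        · rw [← h0]; norm_num
        · nlinarith
      refine ⟨.a, by decide, fun _ z hz hzc => absurd hzc.2 (key z hz).ne, fun _ hz => ?_⟩
      have := key _ hz
      simp only [g, abs_zero] at this
      linarith
    · exact pick .P .a (by decide) (by decide) (by simp only [hv]; norm_num)
        (neg_seg (by decide) _ h (by simp only [hv, g]; norm_num))
        (neg_seg (by decide) _ h (by simp only [hv, g]; norm_num))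
    · exact pick .P .a (by decide) (by decide) (by simp only [hv]; norm_num)
        (neg_seg (by decide) _ h (by simp only [hv, g]; norm_num))
        (neg_seg (by decide) _ h (by simp only [hv, g]; norm_num))
    · exact one_neg (by decide) .P (by decide) (by simp only [g]; norm_num) h
        (by simp only [hv, g]; norm_num)
    · exact pick .P .a (by decide) (by decide) (by simp only [hv]; norm_num)
        (neg_seg (by decide) _ h (by simp only [hv, g]; norm_num))
        (neg_seg (by decide) _ h (by simp only [hv, g]; norm_num))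
    · exact one_neg (by decide) .Q (by decide) (by simp only [g]; norm_num) h
        (by simp only [hv, g]; norm_num)
  · -- on the chord
    have hC : w ∈ C t := ⟨hw, h⟩
    cases t
    · exact pick .Q .a (by decide) (by decide) (by simp only [hv]; norm_num)
        (fun h => absurd hC h) (fun h => absurd hC h)
    · exact pick .Q .a (by decide) (by decide) (by simp only [hv]; norm_num)
        (fun h => absurd hC h) (fun h => absurd hC h)
    · exact pick .b .a (by decide) (by decide) (by simp only [hv]; norm_num)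
        (fun h => absurd hC h) (fun h => absurd hC h)
    · exact pick .P .a (by decide) (by decide) (by simp only [hv]; norm_num)
        (fun h => absurd hC h) (fun h => absurd hC h)
    · exact pick .P .a (by decide) (by decide) (by simp only [hv]; norm_num)
        (fun h => absurd hC h) (fun h => absurd hC h)
    · exact pick .P .c (by decide) (by decide) (by simp only [hv]; norm_num)
        (fun h => absurd hC h) (fun h => absurd hC h)
    · exact pick .P .a (by decide) (by decide) (by simp only [hv]; norm_num)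
        (fun h => absurd hC h) (fun h => absurd hC h)
    · exact pick .P .c (by decide) (by decide) (by simp only [hv]; norm_num)
        (fun h => absurd hC h) (fun h => absurd hC h)
  · -- above
    cases t
    · exact one_pos (by decide) .b (by decide) (by simp only [g]; norm_num) h
        (by simp only [hv, g]; norm_num)
    · exact one_pos (by decide) .b (by decide) (by simp only [g]; norm_num) h
        (by simp only [hv, g]; norm_num)
    · -- the bent chord
      have key : ∀ v : Hx, g .PQ (hv v).1 < (hv v).2 →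
          ∀ z ∈ segment ℝ w (hv v), g .PQ z.1 < z.2 := by
        intro v hv' z hz
        obtain ⟨r, s, hr, hs, hrs, e1, e2⟩ := mem_segment' hz
        simp only [g] at h hv' ⊢
        rw [e1, e2]
        have h1 : |r * w.1 + s * (hv v).1| ≤ r * |w.1| + s * |(hv v).1| := by
          refine (abs_add_le _ _).trans ?_
          rw [abs_mul, abs_mul, abs_of_nonneg hr, abs_of_nonneg hs]
        have : s = 1 - r := by linarith
        subst this
        rcases hr.eq_or_lt with h0 | h0
        · rw [← h0] at h1 ⊢
          simp only [zero_mul, sub_zero, one_mul, zero_add] at h1 ⊢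
          linarith
        · nlinarith
      exact pick .b .c (by decide) (by decide) (by simp only [hv]; norm_num)
        (fun _ z hz hzc => absurd hzc.2
          (key .b (by simp only [hv, g]; norm_num [abs_of_neg]) z hz).ne')
        (fun _ z hz hzc => absurd hzc.2
          (key .c (by simp only [hv, g]; norm_num) z hz).ne')
    · exact one_pos (by decide) .c (by decide) (by simp only [g]; norm_num) h
        (by simp only [hv, g]; norm_num)
    · exact one_pos (by decide) .d (by decide) (by simp only [g]; norm_num) h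
        (by simp only [hv, g]; norm_num)
    · exact pick .c .d (by decide) (by decide) (by simp only [hv]; norm_num)
        (pos_seg (by decide) _ h (by simp only [hv, g]; norm_num))
        (pos_seg (by decide) _ h (by simp only [hv, g]; norm_num))
    · exact one_pos (by decide) .d (by decide) (by simp only [g]; norm_num) h
        (by simp only [hv, g]; norm_num)
    · exact pick .b .c (by decide) (by decide) (by simp only [hv]; norm_num)
        (pos_seg (by decide) _ h (by simp only [hv, g]; norm_num))
        (pos_seg (by decide) _ h (by simp only [hv, g]; norm_num))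

end Pool.Agent.R30.Hex
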