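import Pool.Agent.R30.Hex.Defs

set_option autoImplicit false

/-! Forests in multigraphs: edge sets without leaves contain cycles, and forests are small. -/

namespace Pool.Agent.R30.Hex

open Set

variable {V E : Type}

/-- a nonempty edge set in which no vertex is an end of exactly one edge -/
def NoLeaf (G : TopGraph V E) (T : Set E) : Prop :=
  T.Nonempty ∧ ∀ e ∈ T, ∀ v, G.IsEnd v e → ∃ f ∈ T, f ≠ e ∧ G.IsEnd v f

lemma cycle_of_noLeaf [Finite V] (G : TopGraph V E) {T : Set E} (hT : NoLeaf G T) :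
    ∃ (n : ℕ) (v : Fin (n + 1) → V) (e : Fin (n + 1) → E), Function.Injective v ∧
      Function.Injective e ∧ ∀ i, e i ∈ T ∧ G.Joins (e i) (v i) (v (i + 1)) := by
  obtain ⟨⟨e0, he0⟩, hnl⟩ := hT
  have step : ∀ x : {p : V × E // p.2 ∈ T ∧ G.IsEnd p.1 p.2},
      ∃ y : {p : V × E // p.2 ∈ T ∧ G.IsEnd p.1 p.2},
        y.1.2 ≠ x.1.2 ∧ G.Joins y.1.2 x.1.1 y.1.1 := by
    rintro ⟨⟨v, e⟩, he, hv⟩
    obtain ⟨f, hf, hfe, hvf⟩ := hnl e he v hv
    rcases hvf with h | h
    · exact ⟨⟨(G.tgt f, f), hf, Or.inr rfl⟩, hfe, Or.inl ⟨h.symm, rfl⟩⟩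
    · exact ⟨⟨(G.src f, f), hf, Or.inl rfl⟩, hfe, Or.inr ⟨rfl, h.symm⟩⟩
  choose nxt hn1 hn2 using step
  obtain ⟨x, hx⟩ : ∃ x : ℕ → {p : V × E // p.2 ∈ T ∧ G.IsEnd p.1 p.2},
      ∀ n, x (n + 1) = nxt (x n) :=
    ⟨fun n => nxt^[n] ⟨(G.src e0, e0), he0, Or.inl rfl⟩,
      fun n => Function.iterate_succ_apply' nxt n _⟩
  obtain ⟨v, hv⟩ : ∃ v : ℕ → V, ∀ n, v n = (x n).1.1 := ⟨_, fun _ => rfl⟩
  obtain ⟨e, he⟩ : ∃ e : ℕ → E, ∀ n, e n = (x (n + 1)).1.2 := ⟨_, fun _ => rfl⟩
  have heT : ∀ n, e n ∈ T := fun n => by rw [he]; exact (x (n + 1)).2.1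
  have hne : ∀ n, e (n + 1) ≠ e n := fun n => by
    rw [he, he, hx (n + 1)]; exact hn1 _
  have hj : ∀ n, G.Joins (e n) (v n) (v (n + 1)) := fun n => by
    rw [he, hv, hv, hx n]; exact hn2 _
  have hex : ∃ d i, v i = v (i + (d + 1)) := by
    obtain ⟨i, j, hij, h⟩ := Finite.exists_ne_map_eq_of_infinite v
    rcases lt_or_gt_of_ne hij with hlt | hlt
    · exact ⟨j - i - 1, i, by rw [show i + (j - i - 1 + 1) = j by omega]; exact h⟩
    · exact ⟨i - j - 1, j, by rw [show j + (i - j - 1 + 1) = i by omega]; exact h.symm⟩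
  classical
  obtain ⟨i, hi⟩ := Nat.find_spec hex
  set n := Nat.find hex with hn
  have hmin : ∀ m < n, ∀ i, v i ≠ v (i + (m + 1)) := fun m hm i h => Nat.find_min hex hm ⟨i, h⟩
  have hinj : ∀ a b : ℕ, a ≤ n → b ≤ n → v (i + a) = v (i + b) → a = b := by
    intro a b ha hb h
    rcases lt_trichotomy a b with hlt | heq | hlt
    · exfalso
      apply hmin (b - a - 1) (by omega) (i + a)
      rw [show i + a + (b - a - 1 + 1) = i + b by omega]; exact h
    · exact heq
    · exfalso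
      apply hmin (a - b - 1) (by omega) (i + b)
      rw [show i + b + (a - b - 1 + 1) = i + a by omega]; exact h.symm
  have hwrap : ∀ k : Fin (n + 1), v (i + ((k + 1 : Fin (n + 1)) : ℕ)) = v (i + k + 1) := by
    intro k
    rw [Fin.val_add_one]
    split_ifs with h
    · subst h
      simp only [Fin.val_last, add_zero]
      rw [hi]
      rfl
    · rfl
  have hlt : ∀ a b : ℕ, a < b → b ≤ n → e (i + a) ≠ e (i + b) := by
    intro a b hab hb h
    have j1 := hj (i + a)
    have j2 := hj (i + b)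
    rw [← h] at j2
    -- compare ends
    have hcase : (v (i + a) = v (i + b)) ∨ (v (i + a + 1) = v (i + b)) := by
      rcases j1 with ⟨p1, p2⟩ | ⟨p1, p2⟩ <;> rcases j2 with ⟨q1, q2⟩ | ⟨q1, q2⟩
      · left; rw [← p1, ← q1]
      · right; rw [← p2, ← q2]
      · right; rw [← p1, ← q1]
      · left; rw [← p2, ← q2]
    rcases hcase with h1 | h1
    · have := hinj a b (by omega) hb h1
      omega
    · have := hinj (a + 1) b (by omega) hb h1
      subst this
      exact hne (i + a) h.symm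
  refine ⟨n, fun k => v (i + k), fun k => e (i + k), ?_, ?_, ?_⟩
  · intro a b h
    exact Fin.ext (hinj a b (by omega) (by omega) h)
  · intro a b h
    rcases lt_trichotomy (a : ℕ) b with h1 | h1 | h1
    · exact absurd h (hlt a b h1 (by omega))
    · exact Fin.ext h1
    · exact absurd h.symm (hlt b a h1 (by omega))
  · intro k
    refine ⟨heT _, ?_⟩
    simp only
    rw [hwrap]
    exact hj (i + k)

lemma prune [DecidableEq V] [DecidableEq E] (G : TopGraph V E) : ∀ (n : ℕ) (S : Finset E)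
    (W : Finset V), S.card = n → W.Nonempty → (∀ e ∈ S, G.src e ∈ W ∧ G.tgt e ∈ W) →
    (∀ T : Set E, T ⊆ (S : Set E) → ¬ NoLeaf G T) → S.card + 1 ≤ W.card := by
  intro n
  induction n with
  | zero =>
    intro S W hS hW _ _
    rw [hS]
    exact Finset.card_pos.mpr hW
  | succ n ih =>
    intro S W hS hW hSW hT
    have hne : S.Nonempty := Finset.card_pos.mp (by omega)
    have h1 := hT (S : Set E) subset_rfl
    unfold NoLeaf at h1
    push Not at h1
    obtain ⟨e, he, v, hv, hall⟩ := h1 (by exact_mod_cast hne)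
    have heS : e ∈ S := by exact_mod_cast he
    have hvW : v ∈ W := by
      rcases hv with rfl | rfl
      · exact (hSW e heS).1
      · exact (hSW e heS).2
    have hother : ∃ u, u ∈ W ∧ u ≠ v := by
      rcases hv with rfl | rfl
      · exact ⟨G.tgt e, (hSW e heS).2, (G.src_ne_tgt e).symm⟩
      · exact ⟨G.src e, (hSW e heS).1, G.src_ne_tgt e⟩
    obtain ⟨u, hu, huv⟩ := hother
    have := ih (S.erase e) (W.erase v) (by rw [Finset.card_erase_of_mem heS]; omega)
      ⟨u, Finset.mem_erase.mpr ⟨huv, hu⟩⟩ (by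
        intro f hf
        obtain ⟨hfe, hfS⟩ := Finset.mem_erase.mp hf
        have hnv := hall f (by exact_mod_cast hfS) hfe
        refine ⟨Finset.mem_erase.mpr ⟨?_, (hSW f hfS).1⟩,
          Finset.mem_erase.mpr ⟨?_, (hSW f hfS).2⟩⟩
        · intro h; exact hnv (Or.inl h.symm)
        · intro h; exact hnv (Or.inr h.symm))
      (fun T hTS => hT T (hTS.trans (by
        intro f hf
        exact_mod_cast Finset.mem_of_mem_erase (by exact_mod_cast hf))))
    rw [Finset.card_erase_of_mem heS, Finset.card_erase_of_mem hvW] at this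
    have hW1 : 0 < W.card := Finset.card_pos.mpr hW
    omega

/-- a forest has fewer edges than vertices -/
lemma forest_card [Fintype V] [DecidableEq V] [Nonempty V] [DecidableEq E] (G : TopGraph V E)
    (S : Finset E) (hS : G.IsForest (S : Set E)) : S.card + 1 ≤ Fintype.card V := by
  rw [← Finset.card_univ]
  refine prune G _ S Finset.univ rfl Finset.univ_nonempty (by simp) ?_
  intro T hT hnl
  obtain ⟨n, v, e, h1, h2, h3⟩ := cycle_of_noLeaf G hnl
  exact hS ⟨n, v, e, h1, h2, fun i => ⟨hT (h3 i).1, (h3 i).2⟩⟩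

end Pool.Agent.R30.Hex
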