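import Pool.Agent.R30.Hex.Graph
import Pool.Agent.R30.Hex.Forest

set_option autoImplicit false

/-! No partition into a 2-plane graph and a forest. -/

namespace Pool.Agent.R30.Hex

open Set

/-- a set of removed chords that leaves the face 2-plane -/
def dom (R : Finset Ch) : Bool :=
  decide (∀ t : Ch, t ∉ R → ((crs t).filter fun t' => t' ∉ R).card ≤ 2)

set_option maxRecDepth 100000 in
lemma dom_spec : ∀ R : Finset Ch, dom R = true → 3 ≤ R.card ∨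
    (R.card = 2 ∧ (({.Pd, .bQ} : Finset Ch) ⊆ R ∨ ({.Pc, .cQ} : Finset Ch) ⊆ R ∨
      ({.ab, .ad} : Finset Ch) ⊆ R)) := by
  decide +kernel

/-- a set of edges of `S` in the faces `F` that joins `P` and `Q` -/
def PathIn (S : Set Ed) (F : Set Fc) : Prop :=
  ∃ T ⊆ S, (∀ e ∈ T, ∃ f ∈ F, ∃ t, e = .ch f t) ∧ (∃ e ∈ T, G.IsEnd .P e) ∧
    (∃ e ∈ T, G.IsEnd .Q e) ∧
    ∀ e ∈ T, ∀ v, G.IsEnd v e → v = .P ∨ v = .Q ∨ ∃ f ∈ T, f ≠ e ∧ G.IsEnd v f

lemma two_paths {S : Set Ed} {F F' : Set Fc} (h : PathIn S F) (h' : PathIn S F')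
    (hd : Disjoint F F') : ∃ T ⊆ S, NoLeaf G T := by
  obtain ⟨T, hTS, hTF, ⟨p, hp, hpP⟩, ⟨q, hq, hqQ⟩, hT⟩ := h
  obtain ⟨T', hTS', hTF', ⟨p', hp', hpP'⟩, ⟨q', hq', hqQ'⟩, hT'⟩ := h'
  have hdis : ∀ e ∈ T, ∀ e' ∈ T', e ≠ e' := by
    rintro e he e' he' rfl
    obtain ⟨f, hf, t, h1⟩ := hTF e he
    obtain ⟨f', hf', t', h2⟩ := hTF' e he'
    rw [h1] at h2
    injection h2 with h3 _
    subst h3
    exact Set.disjoint_left.mp hd hf hf'
  refine ⟨T ∪ T', union_subset hTS hTS', ⟨p, Or.inl hp⟩, ?_⟩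
  rintro e (he | he) v hv
  · rcases hT e he v hv with rfl | rfl | ⟨f, hf, h1, h2⟩
    · exact ⟨p', Or.inr hp', (hdis e he p' hp').symm, hpP'⟩
    · exact ⟨q', Or.inr hq', (hdis e he q' hq').symm, hqQ'⟩
    · exact ⟨f, Or.inl hf, h1, h2⟩
  · rcases hT' e he v hv with rfl | rfl | ⟨f, hf, h1, h2⟩
    · exact ⟨p, Or.inl hp, hdis p hp e he, hpP⟩
    · exact ⟨q, Or.inl hq, hdis q hq e he, hqQ⟩
    · exact ⟨f, Or.inr hf, h1, h2⟩

lemma isEnd_ch {v : Vx} {f : Fc} {t : Ch} (h : G.IsEnd v (.ch f t)) :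
    v = vt f (lh t) ∨ v = vt f (rh t) := h

lemma endL (f : Fc) (t : Ch) {v : Vx} (h : v = vt f (lh t)) : G.IsEnd v (.ch f t) := Or.inl h
lemma endR (f : Fc) (t : Ch) {v : Vx} (h : v = vt f (rh t)) : G.IsEnd v (.ch f t) := Or.inr h

/-- the path through `c` -/
lemma path_beta {S : Set Ed} {F : Set Fc} {f : Fc} (hf : f ∈ F) (h1 : Ed.ch f .Pc ∈ S)
    (h2 : Ed.ch f .cQ ∈ S) : PathIn S F := by
  refine ⟨{.ch f .Pc, .ch f .cQ}, ?_, ?_, ?_, ?_, ?_⟩
  · rintro e (rfl | rfl)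
    · exact h1
    · exact h2
  · rintro e (rfl | rfl)
    · exact ⟨f, hf, _, rfl⟩
    · exact ⟨f, hf, _, rfl⟩
  · exact ⟨_, Or.inl rfl, endL f .Pc rfl⟩
  · exact ⟨_, Or.inr rfl, endR f .cQ rfl⟩
  · rintro e (rfl | rfl) v hv
    · rcases isEnd_ch hv with rfl | rfl
      · left; rfl
      · right; right
        exact ⟨_, Or.inr rfl, by simp, endL f .cQ rfl⟩
    · rcases isEnd_ch hv with rfl | rfl
      · right; right
        exact ⟨_, Or.inl rfl, by simp, endR f .Pc rfl⟩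
      · right; left; rfl

/-- the path through `d`, `a`, `b` -/
lemma path_mixed {S : Set Ed} {F : Set Fc} {f f' : Fc} (hf : f ∈ F) (hf' : f' ∈ F)
    (hlo : lo f = lo f') (h1 : Ed.ch f .Pd ∈ S) (h2 : Ed.ch f .bQ ∈ S)
    (h3 : Ed.ch f' .ab ∈ S) (h4 : Ed.ch f' .ad ∈ S) : PathIn S F := by
  refine ⟨{.ch f .Pd, .ch f .bQ, .ch f' .ab, .ch f' .ad}, ?_, ?_, ?_, ?_, ?_⟩
  · rintro e (rfl | rfl | rfl | rfl)
    · exact h1
    · exact h2
    · exact h3
    · exact h4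
  · rintro e (rfl | rfl | rfl | rfl)
    · exact ⟨f, hf, _, rfl⟩
    · exact ⟨f, hf, _, rfl⟩
    · exact ⟨f', hf', _, rfl⟩
    · exact ⟨f', hf', _, rfl⟩
  · exact ⟨_, Or.inl rfl, endL f .Pd rfl⟩
  · exact ⟨_, Or.inr (Or.inl rfl), endR f .bQ rfl⟩
  · rintro e (rfl | rfl | rfl | rfl) v hv
    · rcases isEnd_ch hv with rfl | rfl
      · left; rfl
      · right; right
        exact ⟨_, Or.inr (Or.inr (Or.inr rfl)), by simp, endR f' .ad (by simp [vt, rh, hlo])⟩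
    · rcases isEnd_ch hv with rfl | rfl
      · right; right
        exact ⟨_, Or.inr (Or.inr (Or.inl rfl)), by simp, endL f' .ab (by simp [vt, lh, hlo])⟩
      · right; left; rfl
    · right; right
      rcases isEnd_ch hv with rfl | rfl
      · exact ⟨_, Or.inr (Or.inl rfl), by simp, endL f .bQ (by simp [vt, lh, hlo])⟩
      · exact ⟨_, Or.inr (Or.inr (Or.inr rfl)), by simp, endL f' .ad rfl⟩
    · right; right
      rcases isEnd_ch hv with rfl | rfl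
      · exact ⟨_, Or.inr (Or.inr (Or.inl rfl)), by simp, endR f' .ab rfl⟩
      · exact ⟨_, Or.inl rfl, by simp, endR f .Pd (by simp [vt, rh, hlo])⟩

/-- two parallel edges `P d` -/
lemma cyc_alpha {S : Set Ed} {f f' : Fc} (hne : f ≠ f') (hlo : lo f = lo f')
    (h1 : Ed.ch f .Pd ∈ S) (h2 : Ed.ch f' .Pd ∈ S) : ∃ T ⊆ S, NoLeaf G T := by
  refine ⟨{.ch f .Pd, .ch f' .Pd}, ?_, ⟨_, Or.inl rfl⟩, ?_⟩
  · rintro e (rfl | rfl)
    · exact h1
    · exact h2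
  · rintro e (rfl | rfl) v hv
    · refine ⟨_, Or.inr rfl, fun h => hne ?_, ?_⟩
      · injection h with h _; exact h.symm
      · rcases isEnd_ch hv with rfl | rfl
        · exact endL f' .Pd rfl
        · exact endR f' .Pd (by simp [vt, rh, hlo])
    · refine ⟨_, Or.inl rfl, fun h => hne ?_, ?_⟩
      · injection h
      · rcases isEnd_ch hv with rfl | rfl
        · exact endL f .Pd rfl
        · exact endR f .Pd (by simp [vt, rh, hlo])

/-- the cycle `a b a' d` -/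
lemma cyc_gamma {S : Set Ed} {f f' : Fc} (hne : f ≠ f') (hlo : lo f = lo f')
    (h1 : Ed.ch f .ab ∈ S) (h2 : Ed.ch f .ad ∈ S) (h3 : Ed.ch f' .ab ∈ S)
    (h4 : Ed.ch f' .ad ∈ S) : ∃ T ⊆ S, NoLeaf G T := by
  have hne1 : ∀ t t', Ed.ch f t ≠ Ed.ch f' t' := fun t t' h => hne (by injection h)
  have hne2 : ∀ t t', Ed.ch f' t ≠ Ed.ch f t' := fun t t' h => hne (by injection h with h _; exact h.symm)
  refine ⟨{.ch f .ab, .ch f .ad, .ch f' .ab, .ch f' .ad}, ?_, ⟨_, Or.inl rfl⟩, ?_⟩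
  · rintro e (rfl | rfl | rfl | rfl)
    · exact h1
    · exact h2
    · exact h3
    · exact h4
  · rintro e (rfl | rfl | rfl | rfl) v hv
    · rcases isEnd_ch hv with rfl | rfl
      · exact ⟨_, Or.inr (Or.inr (Or.inl rfl)), hne2 _ _, endL f' .ab (by simp [vt, lh, hlo])⟩
      · exact ⟨_, Or.inr (Or.inl rfl), by simp, endL f .ad rfl⟩
    · rcases isEnd_ch hv with rfl | rfl
      · exact ⟨_, Or.inl rfl, by simp, endR f .ab rfl⟩
      · exact ⟨_, Or.inr (Or.inr (Or.inr rfl)), hne2 _ _, endR f' .ad (by simp [vt, rh, hlo])⟩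
    · rcases isEnd_ch hv with rfl | rfl
      · exact ⟨_, Or.inl rfl, hne1 _ _, endL f .ab (by simp [vt, lh, hlo])⟩
      · exact ⟨_, Or.inr (Or.inr (Or.inr rfl)), by simp, endL f' .ad rfl⟩
    · rcases isEnd_ch hv with rfl | rfl
      · exact ⟨_, Or.inr (Or.inr (Or.inl rfl)), by simp, endR f' .ab rfl⟩
      · exact ⟨_, Or.inr (Or.inl rfl), hne1 _ _, endR f .ad (by simp [vt, rh, hlo])⟩

section

variable (E₂ : Set Ed) [DecidablePred fun e => e ∈ E₂]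

/-- removed chords of a face -/
def Rm (f : Fc) : Finset Ch := Finset.univ.filter fun t => Ed.ch f t ∈ E₂

lemma mem_Rm {f : Fc} {t : Ch} : t ∈ Rm E₂ f ↔ Ed.ch f t ∈ E₂ := by simp [Rm]

lemma Rm_dom {E₁ : Set Ed} (hU : E₁ ∪ E₂ = univ) (hd : Disjoint E₁ E₂) (h2 : G.IsPlane 2 E₁)
    (f : Fc) : dom (Rm E₂ f) = true := by
  classical
  unfold dom
  rw [decide_eq_true_eq]
  have h12 : ∀ e, e ∈ E₁ ↔ e ∉ E₂ := by
    intro e
    constructor
    · exact fun h h' => Set.disjoint_left.mp hd h h'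
    · intro h
      have : e ∈ E₁ ∪ E₂ := by rw [hU]; trivial
      exact this.resolve_right h
  intro t ht
  rw [mem_Rm] at ht
  have h3 := h2 (.ch f t) ((h12 _).mpr ht)
  rw [crossings_encard] at h3
  have h4 : ((crs t).filter fun t' => t' ∉ Rm E₂ f) =
      (crs t).filter fun t' => Ed.ch f t' ∈ E₁ := by
    apply Finset.filter_congr
    intro t' _
    rw [mem_Rm, h12]
  rw [h4]
  exact_mod_cast h3

lemma pair_faces {f f' : Fc} (hne : f ≠ f') (hlo : lo f = lo f')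
    (h1 : ({.Pd, .bQ} : Finset Ch) ⊆ Rm E₂ f ∨ ({.Pc, .cQ} : Finset Ch) ⊆ Rm E₂ f ∨
      ({.ab, .ad} : Finset Ch) ⊆ Rm E₂ f)
    (h2 : ({.Pd, .bQ} : Finset Ch) ⊆ Rm E₂ f' ∨ ({.Pc, .cQ} : Finset Ch) ⊆ Rm E₂ f' ∨
      ({.ab, .ad} : Finset Ch) ⊆ Rm E₂ f') :
    (∃ T ⊆ E₂, NoLeaf G T) ∨ PathIn E₂ {f, f'} := by
  simp only [Finset.insert_subset_iff, Finset.singleton_subset_iff, mem_Rm] at h1 h2
  rcases h1 with ⟨a1, a2⟩ | ⟨a1, a2⟩ | ⟨a1, a2⟩
  · rcases h2 with ⟨b1, b2⟩ | ⟨b1, b2⟩ | ⟨b1, b2⟩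
    · exact Or.inl (cyc_alpha hne hlo a1 b1)
    · exact Or.inr (path_beta (Or.inr rfl) b1 b2)
    · exact Or.inr (path_mixed (Or.inl rfl) (Or.inr rfl) hlo a1 a2 b1 b2)
  · exact Or.inr (path_beta (Or.inl rfl) a1 a2)
  · rcases h2 with ⟨b1, b2⟩ | ⟨b1, b2⟩ | ⟨b1, b2⟩
    · exact Or.inr (path_mixed (Or.inr rfl) (Or.inl rfl) hlo.symm b1 b2 a1 a2)
    · exact Or.inr (path_beta (Or.inr rfl) b1 b2)
    · exact Or.inl (cyc_gamma hne hlo a1 a2 b1 b2)

lemma sum_Rm : ∑ f : Fc, (Rm E₂ f).card ≤ (Finset.univ.filter fun e => e ∈ E₂).card := by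
  classical
  have h1 : ∀ f : Fc, (Rm E₂ f).card = ((Rm E₂ f).image (Ed.ch f)).card := fun f =>
    (Finset.card_image_of_injective _ (fun x y h => by injection h)).symm
  rw [Finset.sum_congr rfl fun f _ => h1 f, ← Finset.card_biUnion]
  · apply Finset.card_le_card
    intro e he
    simp only [Finset.mem_biUnion, Finset.mem_univ, true_and, Finset.mem_image, mem_Rm] at he
    obtain ⟨f, t, h, rfl⟩ := he
    simpa using h
  · intro f _ f' _ hne
    rw [Function.onFun, Finset.disjoint_left]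
    intro e he he'
    simp only [Finset.mem_image] at he he'
    obtain ⟨t, -, rfl⟩ := he
    obtain ⟨t', -, h⟩ := he'
    injection h with h _
    exact hne h.symm

end

theorem no_partition (E₁ E₂ : Set Ed) (hU : E₁ ∪ E₂ = univ) (hd : Disjoint E₁ E₂)
    (h2 : G.IsPlane 2 E₁) : ¬ G.IsForest E₂ := by
  classical
  intro hF
  have hno : ¬ ∃ T ⊆ E₂, NoLeaf G T := by
    rintro ⟨T, hT, hnl⟩
    obtain ⟨n, v, e, g1, g2, g3⟩ := cycle_of_noLeaf G hnl
    exact hF ⟨n, v, e, g1, g2, fun i => ⟨hT (g3 i).1, (g3 i).2⟩⟩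
  have : Nonempty Vx := ⟨.P⟩
  have hcard : (Finset.univ.filter fun e => e ∈ E₂).card + 1 ≤ Fintype.card Vx := by
    apply forest_card G
    have : ((Finset.univ.filter fun e => e ∈ E₂ : Finset Ed) : Set Ed) = E₂ := by
      ext e; simp
    rw [this]; exact hF
  have hV : Fintype.card Vx = 14 := by decide
  have hsum := sum_Rm E₂
  have hS : ∑ f : Fc, (Rm E₂ f).card = (Rm E₂ .f0).card + (Rm E₂ .f1).card + (Rm E₂ .f2).card +
      (Rm E₂ .f3).card + (Rm E₂ .f4).card + (Rm E₂ .f5).card := by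
    have : (Finset.univ : Finset Fc) = {.f0, .f1, .f2, .f3, .f4, .f5} := by decide
    rw [this]
    simp [Finset.sum_insert, add_assoc]
  rw [hS] at hsum
  rw [hV] at hcard
  have hd' : ∀ f, 3 ≤ (Rm E₂ f).card ∨ ((Rm E₂ f).card = 2 ∧
      (({.Pd, .bQ} : Finset Ch) ⊆ Rm E₂ f ∨ ({.Pc, .cQ} : Finset Ch) ⊆ Rm E₂ f ∨
      ({.ab, .ad} : Finset Ch) ⊆ Rm E₂ f)) := fun f => dom_spec _ (Rm_dom E₂ hU hd h2 f)
  have hge : ∀ f, 2 ≤ (Rm E₂ f).card := fun f => by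
    rcases hd' f with h | h
    · omega
    · omega
  have g0 := hge .f0
  have g1 := hge .f1
  have g2 := hge .f2
  have g3 := hge .f3
  have g4 := hge .f4
  have g5 := hge .f5
  have good : ∀ f f' : Fc, f ≠ f' → lo f = lo f' → (Rm E₂ f).card = 2 → (Rm E₂ f').card = 2 →
      PathIn E₂ {f, f'} := by
    intro f f' hne hlo c1 c2
    rcases hd' f with h | ⟨-, h⟩
    · omega
    · rcases hd' f' with h' | ⟨-, h'⟩
      · omega
      · exact (pair_faces E₂ hne hlo h h').resolve_left hno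
  by_cases k0 : (Rm E₂ .f0).card = 2 ∧ (Rm E₂ .f1).card = 2
  · have p0 := good .f0 .f1 (by decide) rfl k0.1 k0.2
    by_cases k1 : (Rm E₂ .f2).card = 2 ∧ (Rm E₂ .f3).card = 2
    · have p1 := good .f2 .f3 (by decide) rfl k1.1 k1.2
      exact hno (two_paths p0 p1 (by simp))
    · have p2 := good .f4 .f5 (by decide) rfl (by omega) (by omega)
      exact hno (two_paths p0 p2 (by simp))
  · have p1 := good .f2 .f3 (by decide) rfl (by omega) (by omega)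
    have p2 := good .f4 .f5 (by decide) rfl (by omega) (by omega)
    exact hno (two_paths p1 p2 (by simp))

theorem main : ∃ (V E : Type) (_ : Fintype V) (_ : Fintype E) (G : TopGraph V E),
    Fintype.card V = 14 ∧ G.IsOptimal3Plane ∧
    ∀ E₁ E₂ : Set E, E₁ ∪ E₂ = univ → Disjoint E₁ E₂ → G.IsPlane 2 E₁ → ¬ G.IsForest E₂ :=
  ⟨Vx, Ed, inferInstance, inferInstance, G, by decide,
    ⟨G_simple, G_noHomotopic, G_three, G_count⟩, no_partition⟩

end Pool.Agent.R30.Hex
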