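import Pool.Agent.R30.Hex.Chart

set_option autoImplicit false

/-! The graph and its drawing. -/

namespace Pool.Agent.R30.Hex

open Set Topology Pool.Agent.R30.Thr

/-- vertices -/
inductive Vx | P | Q | a (j : Z3) | b (k : Z3) | c (k : Z3) | d (k : Z3)
  deriving DecidableEq, Fintype

/-- skeleton edges -/
inductive SkE | Pa (j : Z3) | aQ (j : Z3) | Pb (k : Z3) | bc (k : Z3) | cd (k : Z3) | dQ (k : Z3)
  deriving DecidableEq, Fintype

/-- edges -/
inductive Ed | ch (f : Fc) (t : Ch) | sk (e : SkE)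
  deriving DecidableEq, Fintype

/-- the points of the vertices -/
noncomputable def pos : Vx → ℝ × ℝ
  | .P => (-1, 0)
  | .Q => (1, 0)
  | .a j => (0, ms j)
  | .b k => (-3 / 5, ml k * (4 / 5))
  | .c k => (0, ml k)
  | .d k => (3 / 5, ml k * (4 / 5))

/-- corners of faces -/
def vt (f : Fc) : Hx → Vx
  | .P => .P
  | .b => .b (lo f)
  | .c => .c (lo f)
  | .d => .d (lo f)
  | .Q => .Q
  | .a => .a (sh f)

/-- multiplier of the path of a skeleton edge -/
noncomputable def mu : SkE → ℝ
  | .Pa j => ms j | .aQ j => ms j | .Pb k => ml k | .bc k => ml k | .cd k => ml k | .dQ k => ml k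

/-- left end of the interval -/
noncomputable def xl : SkE → ℝ
  | .Pa _ => -1 | .aQ _ => 0 | .Pb _ => -1 | .bc _ => -3 / 5 | .cd _ => 0 | .dQ _ => 3 / 5

/-- right end of the interval -/
noncomputable def xr : SkE → ℝ
  | .Pa _ => 0 | .aQ _ => 1 | .Pb _ => -3 / 5 | .bc _ => 0 | .cd _ => 3 / 5 | .dQ _ => 1

/-- left vertex -/
def vl : SkE → Vx
  | .Pa _ => .P | .aQ j => .a j | .Pb _ => .P | .bc k => .b k | .cd k => .c k | .dQ k => .d k

/-- right vertex -/
def vr : SkE → Vx
  | .Pa j => .a j | .aQ _ => .Q | .Pb k => .b k | .bc k => .c k | .cd k => .d k | .dQ _ => .Q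

/-- first end -/
def src : Ed → Vx
  | .ch f t => vt f (lh t)
  | .sk e => vl e

/-- second end -/
def tgt : Ed → Vx
  | .ch f t => vt f (rh t)
  | .sk e => vr e

/-- arcs -/
noncomputable def arc : Ed → Set (ℝ × ℝ)
  | .ch f t => chart f '' C t
  | .sk e => Sk (mu e) (xl e) (xr e)

lemma ms_inj {j j' : Z3} (h : ms j = ms j') : j = j' := by
  cases j <;> cases j' <;> first
    | rfl
    | (exfalso; simp only [ms] at h; norm_num at h)

lemma ml_inj {j j' : Z3} (h : ml j = ml j') : j = j' := by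
  cases j <;> cases j' <;> first
    | rfl
    | (exfalso; simp only [ml] at h; norm_num at h)

lemma ms_ne_ml (j k : Z3) : ms j ≠ ml k := by
  intro h
  cases j <;> cases k <;> (simp only [ms, ml] at h; norm_num at h)

lemma pos_injective : Function.Injective pos := by
  intro x y h
  cases x <;> cases y <;> simp only [pos, Prod.mk.injEq] at h <;> first
    | rfl
    | (exfalso; norm_num at h; done)
    | (obtain ⟨-, h⟩ := h; rw [ms_inj h]; done)
    | (obtain ⟨-, h⟩ := h; rw [ml_inj h]; done)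
    | (obtain ⟨-, h⟩ := h; rw [ml_inj (mul_right_cancel₀ (by norm_num) h)]; done)
    | (obtain ⟨-, h⟩ := h; exact absurd h (ms_ne_ml _ _))
    | (obtain ⟨-, h⟩ := h; exact absurd h.symm (ms_ne_ml _ _))

lemma vt_inj {f : Fc} {h h' : Hx} (e : vt f h = vt f h') : h = h' := by
  cases h <;> cases h' <;> first
    | rfl
    | (exfalso; simp [vt] at e)

lemma chart_hv (f : Fc) (h : Hx) : chart f (hv h) = pos (vt f h) := by
  by_cases hf : f = .f5
  · subst hf
    rw [chart_f5]
    have e : nq (hv h) = 1 := hv_circle h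
    rw [e]
    cases h <;> simp only [hv, vt, pos, lo, sh, ms, ml] <;> norm_num
  · rw [chart_ne hf]
    cases h <;> simp only [hv, vt, pos, s_neg_one, s_one, s_zero, s_35, s_n35] <;>
      cases f <;> first
      | exact absurd rfl hf
      | (simp only [eps, cen, lo, sh, ms, ml]; norm_num)

lemma C_nq {t : Ch} {w : ℝ × ℝ} (h : w ∈ C t) : nq w ≤ 1 := h.1

lemma C_ne {t : Ch} {w : ℝ × ℝ} (h : w ∈ C t) : w ≠ (0, 0) := by
  rintro rfl; exact zero_notMem t h

lemma C_sub (f : Fc) (t : Ch) : C t ⊆ (chart f).source := fun _ h => mem_source fun _ => C_ne h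

lemma mul_mu (e : SkE) : IsMul (mu e) := by
  cases e <;> simp only [mu] <;> first
    | exact isMul_ms _
    | exact isMul_ml _

lemma xl_ge (e : SkE) : -1 ≤ xl e := by cases e <;> simp only [xl] <;> norm_num
lemma xr_le (e : SkE) : xr e ≤ 1 := by cases e <;> simp only [xr] <;> norm_num
lemma xl_lt (e : SkE) : xl e < xr e := by cases e <;> simp only [xl, xr] <;> norm_num

lemma pos_vl (e : SkE) : pos (vl e) = (xl e, mu e * s (xl e)) := by
  cases e <;> simp only [pos, vl, xl, mu, s_neg_one, s_one, s_zero, s_35, s_n35] <;> simp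

lemma pos_vr (e : SkE) : pos (vr e) = (xr e, mu e * s (xr e)) := by
  cases e <;> simp only [pos, vr, xr, mu, s_neg_one, s_one, s_zero, s_35, s_n35] <;> simp

lemma isArc_image {A : Set (ℝ × ℝ)} {p q : ℝ × ℝ} (h : IsArc A p q) {φ : ℝ × ℝ → ℝ × ℝ}
    (hc : ContinuousOn φ A) (hi : InjOn φ A) : IsArc (φ '' A) (φ p) (φ q) := by
  obtain ⟨γ, gc, gi, g0, g1, rfl⟩ := h
  refine ⟨φ ∘ γ, hc.comp gc (mapsTo_image _ _), ?_, by simp [g0], by simp [g1], ?_⟩
  · intro a ha b hb hab
    exact gi ha hb (hi (mem_image_of_mem _ ha) (mem_image_of_mem _ hb) hab)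
  · rw [image_comp]

/-- every vertex is on the skeleton -/
lemma pos_sk (v : Vx) : ∃ m, IsMul m ∧ pos v ∈ Sk m (-1) 1 := by
  cases v with
  | P => exact ⟨1, by simp [IsMul], ⟨by simp only [pos]; norm_num, by simp [pos, s_neg_one]⟩⟩
  | Q => exact ⟨1, by simp [IsMul], ⟨by simp only [pos]; norm_num, by simp [pos, s_one]⟩⟩
  | a j => exact ⟨ms j, isMul_ms j, ⟨by simp only [pos]; norm_num, by simp [pos, s_zero]⟩⟩
  | b j => exact ⟨ml j, isMul_ml j, ⟨by simp only [pos]; norm_num, by simp [pos, s_n35]⟩⟩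
  | c j => exact ⟨ml j, isMul_ml j, ⟨by simp only [pos]; norm_num, by simp [pos, s_zero]⟩⟩
  | d j => exact ⟨ml j, isMul_ml j, ⟨by simp only [pos]; norm_num, by simp [pos, s_35]⟩⟩

/-- a point of a chord arc that is on the skeleton is one of its ends -/
lemma ch_sk {f : Fc} {t : Ch} {z : ℝ × ℝ} (hz : z ∈ arc (.ch f t)) {m x₀ x₁ : ℝ}
    (hm : IsMul m) (hx₀ : -1 ≤ x₀) (hx₁ : x₁ ≤ 1) (h : z ∈ Sk m x₀ x₁) :
    z = pos (src (.ch f t)) ∨ z = pos (tgt (.ch f t)) := by
  obtain ⟨w, hw, rfl⟩ := hz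
  have h1 := sk_disj (C_nq hw) (fun _ => C_ne hw) hm hx₀ hx₁ h
  rcases C_circle hw h1 with rfl | rfl
  · left; exact chart_hv f _
  · right; exact chart_hv f _

/-- chord arcs in different faces meet in ends only -/
lemma ch_ch {f f' : Fc} (hne : f ≠ f') {t t' : Ch} {z : ℝ × ℝ} (hz : z ∈ arc (.ch f t))
    (hz' : z ∈ arc (.ch f' t')) :
    z = pos (src (.ch f t)) ∨ z = pos (tgt (.ch f t)) := by
  obtain ⟨w, hw, rfl⟩ := hz
  obtain ⟨w', hw', h⟩ := hz'
  have h1 := faces_disj hne (C_nq hw) (C_nq hw') (fun _ => C_ne hw) (fun _ => C_ne hw') h.symm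
  rcases C_circle hw h1 with rfl | rfl
  · left; exact chart_hv f _
  · right; exact chart_hv f _

/-- vertices on skeleton arcs -/
lemma sk_avoids (e : SkE) (v : Vx) (h : pos v ∈ arc (.sk e)) : v = vl e ∨ v = vr e := by
  obtain ⟨⟨h1, h2⟩, h3⟩ := h
  cases v <;> cases e <;>
    simp only [pos, xl, xr, mu, s_neg_one, s_one, s_zero, s_35, s_n35, mul_one] at h1 h2 h3 <;>
    simp only [vl, vr] <;> first
    | exact Or.inl trivial
    | exact Or.inr trivial
    | exact Or.inl rfl
    | exact Or.inr rfl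
    | exact absurd (mul_right_cancel₀ (by norm_num) h3).symm (ms_ne_ml _ _)
    | (exfalso; norm_num at h1; done)
    | (exfalso; norm_num at h2; done)
    | (rw [ms_inj h3]; first | exact Or.inl rfl | exact Or.inr rfl)
    | (rw [ml_inj h3]; first | exact Or.inl rfl | exact Or.inr rfl)
    | (rw [ml_inj (mul_right_cancel₀ (by norm_num) h3)]; first | exact Or.inl rfl | exact Or.inr rfl)
    | exact absurd h3 (ms_ne_ml _ _)
    | exact absurd h3.symm (ms_ne_ml _ _)

/-- different skeleton arcs meet in vertices only -/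
lemma sk_sk {e e' : SkE} (hne : e ≠ e') {z : ℝ × ℝ} (hz : z ∈ arc (.sk e))
    (hz' : z ∈ arc (.sk e')) : z ∈ range pos := by
  have h1 := hz.1.1
  have h2 := hz.1.2
  have h3 := hz.2
  have h4 := hz'.1.1
  have h5 := hz'.1.2
  have h6 := hz'.2
  by_cases hmu : mu e = mu e'
  · have key : z.1 = xl e ∨ z.1 = xr e := by
      cases e <;> cases e' <;> simp only [mu, xl, xr] at h1 h2 h4 h5 hmu ⊢ <;> first
        | (left; linarith)
        | (right; linarith)
        | exact absurd (by rw [ms_inj hmu]) hne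
        | exact absurd (by rw [ml_inj hmu]) hne
        | exact absurd hmu (ms_ne_ml _ _)
        | exact absurd hmu.symm (ms_ne_ml _ _)
    rcases key with h | h
    · refine ⟨vl e, ?_⟩
      rw [pos_vl, ← h, ← h3]
    · refine ⟨vr e, ?_⟩
      rw [pos_vr, ← h, ← h3]
  · have h7 : (mu e - mu e') * s z.1 = 0 := by rw [sub_mul, ← h3, ← h6, sub_self]
    have h8 : s z.1 = 0 := (mul_eq_zero.mp h7).resolve_left (sub_ne_zero.mpr hmu)
    have b1 := xl_ge e
    have b2 := xr_le e
    have h9 := s_sq (x := z.1) (by nlinarith)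
    rw [h8] at h9
    have h10 : (z.1 - 1) * (z.1 + 1) = 0 := by linarith [h9]
    rw [h8, mul_zero] at h3
    rcases mul_eq_zero.mp h10 with h | h
    · exact ⟨.Q, Prod.ext (by simp only [pos]; linarith) (by simp only [pos]; exact h3.symm)⟩
    · exact ⟨.P, Prod.ext (by simp only [pos]; linarith) (by simp only [pos]; exact h3.symm)⟩

/-- the drawing -/
noncomputable def G : TopGraph Vx Ed where
  pos := pos
  src := src
  tgt := tgt
  arc := arc
  pos_injective := pos_injective
  src_ne_tgt := by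
    intro e
    cases e with
    | ch f t => exact fun h => lh_ne_rh t (vt_inj h)
    | sk e => cases e <;> simp [src, tgt, vl, vr]
  arc_isArc := by
    intro e
    cases e with
    | ch f t =>
      have := isArc_image (C_isArc t) ((chart f).continuousOn.mono (C_sub f t))
        ((chart f).injOn.mono (C_sub f t))
      rw [chart_hv, chart_hv] at this
      exact this
    | sk e =>
      have := isArc_graph (φ := fun x => mu e * s x) (by fun_prop) (xl_lt e)
      rw [← pos_vl, ← pos_vr] at this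
      exact this
  arc_avoids := by
    intro e v h
    cases e with
    | ch f t =>
      obtain ⟨m, hm, hp⟩ := pos_sk v
      rcases ch_sk h hm le_rfl le_rfl hp with h1 | h1
      · exact Or.inl (pos_injective h1)
      · exact Or.inr (pos_injective h1)
    | sk e => exact sk_avoids e v h

/-! ### the drawing is simple -/

lemma crossesAt_image {A B : Set (ℝ × ℝ)} {p : ℝ × ℝ} (h : CrossesAt A B p)
    (φ : OpenPartialHomeomorph (ℝ × ℝ) (ℝ × ℝ)) (hA : A ⊆ φ.source) (hB : B ⊆ φ.source)
    (hp : p ∈ φ.source) : CrossesAt (φ '' A) (φ '' B) (φ p) := by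
  obtain ⟨ψ, h1, h2, h3⟩ := h
  have hmem : ∀ S : Set (ℝ × ℝ), S ⊆ φ.source → ∀ q ∈ φ.target, (q ∈ φ '' S ↔ φ.symm q ∈ S) := by
    intro S hS q hq
    constructor
    · rintro ⟨x, hx, rfl⟩
      rwa [φ.left_inv (hS hx)]
    · intro hx
      exact ⟨_, hx, φ.right_inv hq⟩
  refine ⟨φ.symm.trans ψ, ?_, ?_, ?_⟩
  · rw [OpenPartialHomeomorph.trans_source]
    refine ⟨φ.map_source hp, ?_⟩
    rw [mem_preimage, φ.left_inv hp]; exact h1
  · show ψ (φ.symm (φ p)) = (0, 0)
    rw [φ.left_inv hp]; exact h2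
  · intro q hq
    rw [OpenPartialHomeomorph.trans_source] at hq
    obtain ⟨hq1, hq2⟩ := hq
    have := h3 _ hq2
    rw [hmem A hA q hq1, hmem B hB q hq1]
    exact this

lemma cr_noEnd {t t' : Ch} (h : cr t t' = true) {k k' : Hx} (hk : k = lh t ∨ k = rh t)
    (hk' : k' = lh t' ∨ k' = rh t') : k ≠ k' := by
  revert h
  rcases hk with rfl | rfl <;> rcases hk' with rfl | rfl <;> revert t t' <;> decide

/-- arcs of chords of the same face -/
lemma same_face {f : Fc} {t t' : Ch} (hne : t ≠ t') :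
    (cr t t' = false ∧ arc (.ch f t) ∩ arc (.ch f t') ⊆ range pos) ∨
    (cr t t' = true ∧ arc (.ch f t) ∩ arc (.ch f t') = {chart f (cp t t')} ∧
      CrossesAt (arc (.ch f t)) (arc (.ch f t')) (chart f (cp t t')) ∧
      chart f (cp t t') ∉ range pos) := by
  have hI : arc (.ch f t) ∩ arc (.ch f t') = chart f '' (C t ∩ C t') := by
    rw [InjOn.image_inter (chart f).injOn (C_sub f t) (C_sub f t')]; rfl
  cases hcr : cr t t' with
  | false =>
    left
    refine ⟨rfl, ?_⟩
    rw [hI]
    rintro _ ⟨w, ⟨h1, h2⟩, rfl⟩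
    rcases inter_C hne h1 h2 with h | h
    · rw [hcr] at h; exact absurd h.1 (by decide)
    · rcases C_circle h1 h.2 with rfl | rfl
      · exact ⟨_, (chart_hv f _).symm⟩
      · exact ⟨_, (chart_hv f _).symm⟩
  | true =>
    right
    obtain ⟨m1, m2, m3⟩ := cp_mem hcr
    refine ⟨rfl, ?_, ?_, ?_⟩
    · rw [hI]
      ext z
      constructor
      · rintro ⟨w, ⟨h1, h2⟩, rfl⟩
        rcases inter_C hne h1 h2 with h | h
        · rw [h.2]; rfl
        · rw [hcr] at h; exact absurd h.1 (by decide)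
      · rintro rfl
        exact ⟨_, ⟨m1, m2⟩, rfl⟩
    · exact crossesAt_image (cross_C hcr) _ (C_sub f t) (C_sub f t') (C_sub f t m1)
    · rintro ⟨v, hv'⟩
      obtain ⟨m, hm, hp⟩ := pos_sk v
      rw [hv'] at hp
      have := sk_disj (C_nq m1) (fun _ => C_ne m1) hm le_rfl le_rfl hp
      simp only [nq] at this
      linarith

/-- which edges cross -/
lemma no_cross {e e' : Ed} (hne : e ≠ e')
    (h : ¬ ∃ f t t', e = .ch f t ∧ e' = .ch f t' ∧ cr t t' = true) :
    arc e ∩ arc e' ⊆ range pos := by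
  cases e with
  | sk e =>
    cases e' with
    | sk e' =>
      rintro z ⟨h1, h2⟩
      exact sk_sk (fun hh => hne (by rw [hh])) h1 h2
    | ch f' t' =>
      rintro z ⟨h1, h2⟩
      rcases ch_sk h2 (mul_mu e) (xl_ge e) (xr_le e) h1 with h | h
      · exact ⟨_, h.symm⟩
      · exact ⟨_, h.symm⟩
  | ch f t =>
    cases e' with
    | sk e' =>
      rintro z ⟨h1, h2⟩
      rcases ch_sk h1 (mul_mu e') (xl_ge e') (xr_le e') h2 with h | h
      · exact ⟨_, h.symm⟩
      · exact ⟨_, h.symm⟩
    | ch f' t' =>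
      by_cases hf : f = f'
      · subst hf
        have ht : t ≠ t' := fun hh => hne (by rw [hh])
        rcases same_face (f := f) ht with hh | hh
        · exact hh.2
        · exact absurd ⟨f, t, t', rfl, rfl, hh.1⟩ h
      · rintro z ⟨h1, h2⟩
        rcases ch_ch hf h1 h2 with h | h
        · exact ⟨_, h.symm⟩
        · exact ⟨_, h.symm⟩

lemma cr_ne {t t' : Ch} (h : cr t t' = true) : t ≠ t' := by
  rintro rfl
  cases t <;> exact absurd h (by decide)

lemma yes_cross {f : Fc} {t t' : Ch} (h : cr t t' = true) :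
    ¬ arc (.ch f t) ∩ arc (.ch f t') ⊆ range pos := by
  intro hh
  rcases same_face (f := f) (cr_ne h) with h1 | h1
  · rw [h] at h1; exact absurd h1.1 (by decide)
  · obtain ⟨-, h2, -, h3⟩ := h1
    apply h3
    apply hh
    rw [h2]; rfl

lemma G_simple : G.IsSimple := by
  intro e e' hne
  by_cases h : ∃ f t t', e = .ch f t ∧ e' = .ch f t' ∧ cr t t' = true
  · obtain ⟨f, t, t', rfl, rfl, h⟩ := h
    right
    rcases same_face (f := f) (cr_ne h) with h1 | h1
    · rw [h] at h1; exact absurd h1.1 (by decide)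
    · obtain ⟨-, h2, h3, -⟩ := h1
      refine ⟨?_, _, h2, h3⟩
      rintro v ⟨hv1, hv2⟩
      have e1 : ∃ k, (k = lh t ∨ k = rh t) ∧ v = vt f k := by
        rcases hv1 with hv1 | hv1
        · exact ⟨_, Or.inl rfl, hv1⟩
        · exact ⟨_, Or.inr rfl, hv1⟩
      have e2 : ∃ k, (k = lh t' ∨ k = rh t') ∧ v = vt f k := by
        rcases hv2 with hv2 | hv2
        · exact ⟨_, Or.inl rfl, hv2⟩
        · exact ⟨_, Or.inr rfl, hv2⟩
      obtain ⟨k, hk, hv3⟩ := e1
      obtain ⟨k', hk', hv4⟩ := e2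
      exact cr_noEnd h hk hk' (vt_inj (hv3.symm.trans hv4))
  · exact Or.inl (no_cross hne h)

/-- the edges that cross a chord -/
lemma crossings_ch (S : Set Ed) (f : Fc) (t : Ch) :
    G.crossings S (.ch f t) = {e | ∃ t', e = .ch f t' ∧ cr t t' = true ∧ Ed.ch f t' ∈ S} := by
  ext e
  constructor
  · rintro ⟨h1, h2, h3⟩
    by_contra hc
    apply h3
    apply no_cross h2.symm
    rintro ⟨f', t1, t', h4, h5, h6⟩
    injection h4 with h7 h8
    subst h7 h8
    exact hc ⟨t', h5, h6, h5 ▸ h1⟩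
  · rintro ⟨t', rfl, h1, h2⟩
    refine ⟨h2, fun h => ?_, yes_cross h1⟩
    injection h with _ h3
    exact cr_ne h1 h3.symm

lemma crossings_sk (S : Set Ed) (e : SkE) : G.crossings S (.sk e) = ∅ := by
  ext e'
  simp only [mem_empty_iff_false, iff_false]
  rintro ⟨h1, h2, h3⟩
  apply h3
  apply no_cross h2.symm
  rintro ⟨f', t1, t', h4, h5, h6⟩
  cases h4

/-- the chords that cross a chord -/
def crs (t : Ch) : Finset Ch := Finset.univ.filter fun t' => cr t t' = true

lemma crs_card (t : Ch) : (crs t).card ≤ 3 := by cases t <;> decide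

lemma crossings_encard (S : Set Ed) (f : Fc) (t : Ch) [DecidablePred fun t' => Ed.ch f t' ∈ S] :
    (G.crossings S (.ch f t)).encard =
      ((crs t).filter fun t' => Ed.ch f t' ∈ S).card := by
  have : G.crossings S (.ch f t) =
      (Ed.ch f) '' (((crs t).filter fun t' => Ed.ch f t' ∈ S : Finset Ch) : Set Ch) := by
    rw [crossings_ch]
    ext e
    simp only [mem_ofPred_eq, Finset.coe_filter, mem_image, crs, Finset.mem_filter,
      Finset.mem_univ, true_and]
    constructor
    · rintro ⟨t', rfl, h1, h2⟩; exact ⟨t', ⟨h1, h2⟩, rfl⟩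
    · rintro ⟨t', ⟨h1, h2⟩, rfl⟩; exact ⟨t', rfl, h1, h2⟩
  rw [this, InjOn.encard_image, encard_coe_eq_coe_finsetCard]
  intro x _ y _ h
  injection h

lemma G_three : G.IsPlane 3 univ := by
  classical
  intro e _
  cases e with
  | ch f t =>
    rw [crossings_encard]
    have h1 := Finset.card_filter_le (crs t) (fun t' => Ed.ch f t' ∈ (univ : Set Ed))
    have h2 := crs_card t
    exact_mod_cast h1.trans h2
  | sk e => rw [crossings_sk]; simp

lemma G_count : 2 * Fintype.card Ed + 22 = 11 * Fintype.card Vx := by decide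

/-! ### no homotopic parallel edges -/

lemma parallel_ch {e e' : Ed} (hne : e ≠ e') (h : G.Joins e (src e') (tgt e')) :
    ∃ f f' t, f ≠ f' ∧ e = .ch f t ∧ e' = .ch f' t := by
  revert e e'
  have : ∀ e e' : Ed, e ≠ e' → ((src e = src e' ∧ tgt e = tgt e') ∨
      (src e = tgt e' ∧ tgt e = src e')) →
      ∃ f f' t, f ≠ f' ∧ e = .ch f t ∧ e' = .ch f' t := by
    intro e e' hne h
    cases e with
    | ch f t =>
      cases e' with
      | ch f' t' =>
        by_cases ht : t = t'
        · subst ht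
          exact ⟨f, f', t, fun hh => hne (by rw [hh]), rfl, rfl⟩
        · exfalso
          cases t <;> cases t' <;> first
            | exact ht rfl
            | (simp [src, tgt, vt, lh, rh] at h; done)
      | sk e' =>
        exfalso
        cases t <;> cases e' <;> simp [src, tgt, vt, lh, rh, vl, vr] at h
    | sk e =>
      cases e' with
      | ch f' t' =>
        exfalso
        cases t' <;> cases e <;> simp [src, tgt, vt, lh, rh, vl, vr] at h
      | sk e' =>
        exfalso
        cases e <;> cases e' <;> simp [src, tgt, vl, vr] at h <;>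
          exact hne (by simp [h])
  intro e e' hne h
  exact this e e' hne h

lemma nq_segment {w v z : ℝ × ℝ} (hw : nq w ≤ 1) (hv' : nq v ≤ 1) (hz : z ∈ segment ℝ w v) :
    nq z ≤ 1 ∧ (nq z = 1 → z = w ∨ z = v) := by
  obtain ⟨r, q, hr, hs, hrs, e1, e2⟩ := mem_segment' hz
  have hr' : r = 1 - q := by linarith
  subst hr'
  have key : nq z = (1 - q) * nq w + q * nq v - (1 - q) * q * ((w.1 - v.1) ^ 2 +
      (w.2 - v.2) ^ 2) := by
    simp only [nq]; rw [e1, e2]; ring
  have hnn : 0 ≤ (1 - q) * q * ((w.1 - v.1) ^ 2 + (w.2 - v.2) ^ 2) := by positivity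
  have b1 : (1 - q) * nq w ≤ (1 - q) * 1 := mul_le_mul_of_nonneg_left hw hr
  have b2 : q * nq v ≤ q * 1 := mul_le_mul_of_nonneg_left hv' hs
  refine ⟨by linarith, fun h1 => ?_⟩
  have h2 : (1 - q) * q * ((w.1 - v.1) ^ 2 + (w.2 - v.2) ^ 2) = 0 := by linarith
  rcases mul_eq_zero.mp h2 with h3 | h3
  · rcases mul_eq_zero.mp h3 with h4 | h4
    · right
      have : q = 1 := by linarith
      subst this
      exact Prod.ext (by linarith) (by linarith)
    · left
      subst h4
      exact Prod.ext (by linarith) (by linarith)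
  · left
    have h4 : (w.1 - v.1) ^ 2 = 0 := by nlinarith [sq_nonneg (w.1 - v.1), sq_nonneg (w.2 - v.2)]
    have h5 : (w.2 - v.2) ^ 2 = 0 := by nlinarith [sq_nonneg (w.1 - v.1), sq_nonneg (w.2 - v.2)]
    have h6 : w.1 - v.1 = 0 := by simpa using h4
    have h7 : w.2 - v.2 = 0 := by simpa using h5
    apply Prod.ext
    · rw [e1]; linear_combination (-q) * h6
    · rw [e2]; linear_combination (-q) * h7

/-- corners of type different from the ends of a chord -/
lemma vt_ne_end {f f' : Fc} {t : Ch} {h : Hx} (hh : h ≠ lh t ∧ h ≠ rh t) :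
    vt f h ≠ src (.ch f' t) ∧ vt f h ≠ tgt (.ch f' t) := by
  have : ∀ h' : Hx, h ≠ h' → vt f h ≠ vt f' h' := by
    intro h' hne e
    apply hne
    cases h <;> cases h' <;> first
      | rfl
      | (exfalso; simp [vt] at e)
  exact ⟨this _ hh.1, this _ hh.2⟩

lemma G_noHomotopic : G.NoHomotopic := by
  intro e e' hne hj z hz
  obtain ⟨f, f', t, hff, rfl, rfl⟩ := parallel_ch hne hj
  obtain ⟨k, w, hw, hw0, rfl⟩ := cover z
  obtain ⟨h, hend, hr1, hr2⟩ := reach t (w := w) hw
  refine ⟨vt k h, ?_⟩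
  have hnh : nq (hv h) ≤ 1 := (hv_circle h).le
  -- the segment
  have hsrc : segment ℝ w (hv h) ⊆ (chart k).source := by
    intro x hx
    apply mem_source
    rintro hk rfl
    exact hr2 (hw0 hk) hx
  have hconn : IsPreconnected (chart k '' segment ℝ w (hv h)) :=
    (convex_segment w (hv h)).isPreconnected.image _ ((chart k).continuousOn.mono hsrc)
  have key : ∀ g : Fc, chart k w ∉ arc (.ch g t) →
      ∀ x ∈ segment ℝ w (hv h), chart k x ∉ arc (.ch g t) := by
    intro g hg x hx hxa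
    obtain ⟨hx1, hx2⟩ := nq_segment hw hnh hx
    have hx0 : k = .f5 → x ≠ (0, 0) := by
      rintro hk rfl
      exact hr2 (hw0 hk) hx
    obtain ⟨y, hy, hyx⟩ := hxa
    by_cases hgk : k = g
    · subst hgk
      have hyx' : y = x := (chart k).injOn (C_sub k t hy) (mem_source hx0) hyx
      subst hyx'
      refine hr1 ?_ y hx hy
      intro hwc
      exact hg ⟨w, hwc, rfl⟩
    · have hone := faces_disj hgk hx1 (C_nq hy) hx0 (fun _ => C_ne hy) hyx.symm
      rcases hx2 hone with rfl | rfl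
      · exact hg ⟨y, hy, hyx⟩
      · have hone' := faces_disj (Ne.symm hgk) (C_nq hy) hx1 (fun _ => C_ne hy) hx0 hyx
        obtain ⟨n1, n2⟩ := vt_ne_end (f := k) (f' := g) hend
        rw [chart_hv] at hyx
        rcases C_circle hy hone' with rfl | rfl
        · rw [chart_hv] at hyx
          exact n1 (pos_injective hyx.symm)
        · rw [chart_hv] at hyx
          exact n2 (pos_injective hyx.symm)
  have hz1 : chart k w ∉ arc (.ch f t) := fun hh => hz (Or.inl hh)
  have hz2 : chart k w ∉ arc (.ch f' t) := fun hh => hz (Or.inr hh)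
  have hsub : chart k '' segment ℝ w (hv h) ⊆ (G.arc (.ch f t) ∪ G.arc (.ch f' t))ᶜ := by
    rintro _ ⟨x, hx, rfl⟩ hxa
    rcases hxa with hxa | hxa
    · exact key f hz1 x hx hxa
    · exact key f' hz2 x hx hxa
  have hmem := hconn.subset_connectedComponentIn (mem_image_of_mem _ (left_mem_segment ℝ w (hv h)))
    hsub
  apply hmem
  refine ⟨hv h, right_mem_segment ℝ w (hv h), chart_hv k h⟩

end Pool.Agent.R30.Hex
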